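import Pool.Agent.Helper2.RG.Base

/-!
# Project RG, case C (helper54): `l = 2`, the criterion in terms of the field `F`

`F` a number field, `v0` the prime of `F` below `P0`.  If every `z` in `F^*` which has even valuation at all primes
outside `S` and `2` and is a square in the completion at `v0` is a square in `F`, then `Good 2 S F P0`.
-/

set_option autoImplicit false

open scoped Pointwise NumberField
open NumberField IsDedekindDomain

namespace Pool.RG

/-- `v0` is the prime of `F` below `P0`. -/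
def Below (F : IntermediateField ℚ Qb) [NumberField F] (P0 : Ideal (𝓞 Qb)) (v0 : HeightOneSpectrum (𝓞 F)) : Prop :=
  ∀ x : 𝓞 F, x ∈ v0.asIdeal ↔ algebraMap (𝓞 F) (𝓞 Qb) x ∈ P0

/-- Case C. `l = 2`, and every `z` in `F^*` which has even valuation at all primes outside `S ∪ {2}` and for which some
`z y^2` is congruent to `1` modulo `4 v0` (that is, which is a square in the completion of `F` at the place `v0` below
`P0`) is a square in `F`. -/
def CaseC (l : ℕ) (S : Finset ℕ) (F : IntermediateField ℚ Qb) [NumberField F] (P0 : Ideal (𝓞 Qb)) : Prop :=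
  l = 2 ∧ ∀ v0 : HeightOneSpectrum (𝓞 F), Below F P0 v0 → ∀ z : F, z ≠ 0 →
    (∀ v : HeightOneSpectrum (𝓞 F), (2 : 𝓞 F) ∉ v.asIdeal → (∀ p ∈ S, (p : 𝓞 F) ∉ v.asIdeal) →
      IsSquare (v.valuation F z)) →
    (∃ y : F, v0.valuation F (z * y ^ 2 - 1) < v0.valuation F 4) → IsSquare z

end Pool.RG

namespace Pool.RG.CC

/-- the fixed field of an open subgroup -/
theorem GF_fixed (N : Subgroup GQ) (hN : IsOpen (N : Set GQ)) :
    GF (IntermediateField.fixedField N) = N := by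
  have hc : IsClosed (N : Set GQ) := N.isClosed_of_isOpen hN
  have := InfiniteGalois.fixingSubgroup_fixedField (k := ℚ) (K := Qb) ⟨N, hc⟩
  exact this

theorem mem_of_fixed (F : IntermediateField ℚ Qb) (x : Qb) (hx : ∀ g ∈ GF F, g x = x) : x ∈ F := by
  have h := InfiniteGalois.fixedField_fixingSubgroup (k := ℚ) (K := Qb) F
  rw [← h]
  rw [IntermediateField.mem_fixedField_iff]
  intro g hg
  exact hx g hg

theorem fixed_of_mem (F : IntermediateField ℚ Qb) (x : Qb) (hx : x ∈ F) (g : GQ) (hg : g ∈ GF F) :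
    g x = x := (IntermediateField.mem_fixingSubgroup_iff F g).1 hg x hx

/-- Kummer data of a subgroup of index two -/
structure Kum (F : IntermediateField ℚ Qb) (N : Subgroup GQ) (σ : GQ) (β : Qb) : Prop where
  sF : σ ∈ GF F
  sN : σ ∉ N
  ne : β ≠ 0
  fix : ∀ m ∈ N, m β = β
  neg : σ β = -β

theorem mul_mem_of_not (F : IntermediateField ℚ Qb) (N : Subgroup GQ) (_hNF : N ≤ GF F)
    (h2 : N.relIndex (GF F) = 2) (a b : GQ) (ha : a ∈ GF F) (hb : b ∈ GF F) (haN : a ∉ N) (hbN : b ∉ N) :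
    a * b ∈ N := by
  have h := Subgroup.mul_mem_iff_of_index_two (H := N.subgroupOf (GF F)) h2 (a := ⟨a, ha⟩) (b := ⟨b, hb⟩)
  rw [Subgroup.mem_subgroupOf, Subgroup.mem_subgroupOf, Subgroup.mem_subgroupOf] at h
  exact h.2 ⟨fun h1 => (haN h1).elim, fun h1 => (hbN h1).elim⟩

theorem exists_kum (F : IntermediateField ℚ Qb) (N : Subgroup GQ) (hNF : N ≤ GF F)
    (hn : ∀ g ∈ GF F, ∀ n ∈ N, g * n * g⁻¹ ∈ N) (ho : IsOpen (N : Set GQ))
    (h2 : N.relIndex (GF F) = 2) : ∃ σ β, Kum F N σ β := by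
  have h1 : ¬ GF F ≤ N := by
    intro h
    rw [Subgroup.relIndex_eq_one.2 h] at h2
    omega
  obtain ⟨σ, hσF, hσN⟩ := SetLike.not_le_iff_exists.1 h1
  have h3 : ∃ x ∈ IntermediateField.fixedField N, σ x ≠ x := by
    by_contra hcon
    push Not at hcon
    apply hσN
    rw [← GF_fixed N ho]
    exact (IntermediateField.mem_fixingSubgroup_iff _ σ).2 hcon
  obtain ⟨x, hx, hσx⟩ := h3
  rw [IntermediateField.mem_fixedField_iff] at hx
  refine ⟨σ, x - σ x, hσF, hσN, sub_ne_zero.2 hσx.symm, ?_, ?_⟩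
  · intro m hm
    rw [map_sub, hx m hm]
    have h4 : σ⁻¹ * m * σ ∈ N := by
      have := hn σ⁻¹ (inv_mem hσF) m hm
      rwa [inv_inv] at this
    have h5 := hx _ h4
    have h6 : m (σ x) = σ x := by
      have : σ ((σ⁻¹ * m * σ) x) = m (σ x) := by
        rw [← AlgEquiv.mul_apply, ← AlgEquiv.mul_apply]
        congr 1
        group
      rw [← this, h5]
    rw [h6]
  · have h4 : σ * σ ∈ N := mul_mem_of_not F N hNF h2 σ σ hσF hσF hσN hσN
    have h5 := hx _ h4
    rw [AlgEquiv.mul_apply] at h5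
    rw [map_sub, h5]
    ring

variable {F : IntermediateField ℚ Qb} {N : Subgroup GQ} {σ : GQ} {β : Qb}

/-- everything fixed by `N` and `σ` lies in `F` -/
theorem mem_F (hNF : N ≤ GF F) (h2 : N.relIndex (GF F) = 2) (hσF : σ ∈ GF F) (hσN : σ ∉ N) (x : Qb)
    (h1 : ∀ m ∈ N, m x = x) (h3 : σ x = x) : x ∈ F := by
  refine mem_of_fixed F x fun g hg => ?_
  by_cases hgN : g ∈ N
  · exact h1 g hgN
  · have h4 : σ⁻¹ * g ∈ N := by
      refine mul_mem_of_not F N hNF h2 _ _ (inv_mem hσF) hg ?_ hgN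
      intro h
      exact hσN (by simpa using inv_mem h)
    have h5 := h1 _ h4
    have : g x = σ ((σ⁻¹ * g) x) := by
      rw [← AlgEquiv.mul_apply]
      congr 1
      group
    rw [this, h5, h3]

/-- an anti-invariant element is a multiple of `β` -/
theorem anti (hNF : N ≤ GF F) (h2 : N.relIndex (GF F) = 2) (hk : Kum F N σ β) (d : Qb)
    (h1 : ∀ m ∈ N, m d = d) (h3 : σ d = -d) : ∃ m : F, d = (m : Qb) * β := by
  have h4 : d / β ∈ F := by
    refine mem_F hNF h2 hk.sF hk.sN _ ?_ ?_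
    · intro m hm
      rw [map_div₀, h1 m hm, hk.fix m hm]
    · rw [map_div₀, h3, hk.neg, neg_div_neg_eq]
  exact ⟨⟨d / β, h4⟩, by rw [div_mul_cancel₀ _ hk.ne]⟩

/-- `β^2` lies in `F` -/
theorem exists_z (hNF : N ≤ GF F) (h2 : N.relIndex (GF F) = 2) (hk : Kum F N σ β) :
    ∃ z : F, (z : Qb) = β ^ 2 ∧ z ≠ 0 ∧ ¬ IsSquare z := by
  have h4 : β ^ 2 ∈ F := by
    refine mem_F hNF h2 hk.sF hk.sN _ ?_ ?_
    · intro m hm
      rw [map_pow, hk.fix m hm]
    · rw [map_pow, hk.neg, neg_sq]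
  refine ⟨⟨β ^ 2, h4⟩, rfl, ?_, ?_⟩
  · intro h
    have : β ^ 2 = 0 := congrArg Subtype.val h
    exact hk.ne (pow_eq_zero_iff two_ne_zero |>.1 this)
  · rintro ⟨y, hy⟩
    have h5 : β ^ 2 = (y : Qb) ^ 2 := by
      have := congrArg Subtype.val hy
      simpa [sq] using this
    have h6 : σ β = β := by
      rcases sq_eq_sq_iff_eq_or_eq_neg.1 h5 with h | h
      · rw [h]; exact fixed_of_mem F _ y.2 σ hk.sF
      · rw [h, map_neg, fixed_of_mem F _ y.2 σ hk.sF]
    rw [hk.neg] at h6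
    have h7 : (2 : Qb) * β = 0 := by linear_combination -h6
    rcases mul_eq_zero.1 h7 with h | h
    · exact two_ne_zero h
    · exact hk.ne h

/-- integral elements of `Qb` that lie in `F` come from `𝓞 F` -/
theorem lift_int (a : 𝓞 Qb) (ha : (a : Qb) ∈ F) : ∃ t : 𝓞 F, algebraMap (𝓞 F) (𝓞 Qb) t = a := by
  have h1 : IsIntegral ℤ (⟨(a : Qb), ha⟩ : F) := by
    have h2 : IsIntegral ℤ (algebraMap F Qb ⟨(a : Qb), ha⟩) := a.2
    exact (isIntegral_algebraMap_iff (algebraMap F Qb).injective).1 h2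
  refine ⟨⟨⟨(a : Qb), ha⟩, h1⟩, ?_⟩
  ext
  rfl

theorem coe_map (t : 𝓞 F) : ((algebraMap (𝓞 F) (𝓞 Qb) t : 𝓞 Qb) : Qb) = ((t : F) : Qb) := rfl

theorem coe_smul (g : GQ) (a : 𝓞 Qb) : ((g • a : 𝓞 Qb) : Qb) = g (a : Qb) := rfl

/-- the decomposition group: `β^2` is locally a square -/
theorem dec_step (hProf : StProf) [NumberField F] (P0 : Ideal (𝓞 Qb)) (hP0 : P0.IsMaximal)
    (v0 : HeightOneSpectrum (𝓞 F)) (hv : Below F P0 v0)
    (hNF : N ≤ GF F) (hn : ∀ g ∈ GF F, ∀ n ∈ N, g * n * g⁻¹ ∈ N) (ho : IsOpen (N : Set GQ))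
    (h2 : N.relIndex (GF F) = 2) (hk : Kum F N σ β) (hD : GF F ⊓ Dec P0 ≤ N) (z : F)
    (hz : (z : Qb) = β ^ 2) :
    ∃ y : F, v0.valuation F (z * y ^ 2 - 1) < v0.valuation F 4 := by
  -- an element of `L` in `P0` whose conjugate is not in `P0`
  have hex : ∃ a : 𝓞 Qb, (∀ m ∈ N, m (a : Qb) = a) ∧ a ∈ P0 ∧ σ • a ∉ P0 := by
    have hmax : (σ • P0).IsMaximal := isMaximal_smul σ P0 hP0
    have h1 : ¬ ∀ x : 𝓞 Qb, (x : Qb) ∈ IntermediateField.fixedField N → (x ∈ P0 ↔ x ∈ σ • P0) := by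
      intro hcon
      obtain ⟨g, hg, hgP⟩ := (hProf (IntermediateField.fixedField N)).1 P0 (σ • P0) hP0 hmax hcon
      rw [GF_fixed N ho] at hg
      have h3 : g⁻¹ * σ ∈ GF F ⊓ Dec P0 := by
        refine ⟨(GF F).mul_mem ((GF F).inv_mem (hNF hg)) hk.sF, ?_⟩
        change (g⁻¹ * σ) • P0 = P0
        rw [mul_smul, ← hgP, inv_smul_smul]
      have h4 := hD h3
      exact hk.sN (by simpa using N.mul_mem hg h4)
    push Not at h1
    obtain ⟨x, hx, hx2⟩ := h1
    rw [IntermediateField.mem_fixedField_iff] at hx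
    have hss : σ * σ ∈ N := mul_mem_of_not F N hNF h2 σ σ hk.sF hk.sF hk.sN hk.sN
    have hconj : ∀ m ∈ N, σ⁻¹ * m * σ ∈ N := fun m hm => by
      have := hn σ⁻¹ (inv_mem hk.sF) m hm
      rwa [inv_inv] at this
    have hconj' : ∀ m ∈ N, σ * m * σ⁻¹ ∈ N := fun m hm => hn σ hk.sF m hm
    have hinv : ∀ y : 𝓞 Qb, (∀ m ∈ N, m (y : Qb) = y) → σ⁻¹ • y = σ • y := by
      intro y hy
      have h5 : (σ * σ) • y = y := by
        ext
        exact hy _ hss
      rw [mul_smul] at h5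
      rw [inv_smul_eq_iff, h5]
    by_cases hxP : x ∈ P0
    · refine ⟨x, hx, hxP, ?_⟩
      intro h6
      rcases hx2 with ⟨_, h7⟩ | ⟨h7, _⟩
      · rw [mem_smul, hinv x hx] at h7
        exact h7 h6
      · exact h7 hxP
    · have hxS : x ∈ σ • P0 := by
        rcases hx2 with ⟨h7, _⟩ | ⟨_, h7⟩
        · exact (hxP h7).elim
        · exact h7
      rw [mem_smul] at hxS
      refine ⟨σ⁻¹ • x, ?_, hxS, ?_⟩
      · intro m hm
        rw [coe_smul]
        have h8 := hx _ (hconj' m hm)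
        have : m (σ⁻¹ (x : Qb)) = σ⁻¹ ((σ * m * σ⁻¹) (x : Qb)) := by
          rw [← AlgEquiv.mul_apply, ← AlgEquiv.mul_apply]
          congr 1
          group
        rw [this, h8]
      · rwa [smul_inv_smul]
  obtain ⟨a, ha1, ha2, ha3⟩ := hex
  have hss : σ * σ ∈ N := mul_mem_of_not F N hNF h2 σ σ hk.sF hk.sF hk.sN hk.sN
  have hσσ : σ (σ (a : Qb)) = a := by
    rw [← AlgEquiv.mul_apply]; exact ha1 _ hss
  have hmσ : ∀ m ∈ N, m (σ (a : Qb)) = σ a := by
    intro m hm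
    have h4 : σ⁻¹ * m * σ ∈ N := by
      have := hn σ⁻¹ (inv_mem hk.sF) m hm
      rwa [inv_inv] at this
    have h5 := ha1 _ h4
    have : m (σ (a : Qb)) = σ ((σ⁻¹ * m * σ) (a : Qb)) := by
      rw [← AlgEquiv.mul_apply, ← AlgEquiv.mul_apply]
      congr 1
      group
    rw [this, h5]
  -- trace and norm
  obtain ⟨t, ht⟩ := lift_int (F := F) (a + σ • a) (mem_F hNF h2 hk.sF hk.sN _ (by
    intro m hm
    change m ((a : Qb) + σ (a : Qb)) = (a : Qb) + σ (a : Qb)
    rw [map_add, ha1 m hm, hmσ m hm]) (by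
    change σ ((a : Qb) + σ (a : Qb)) = (a : Qb) + σ (a : Qb)
    rw [map_add, hσσ, add_comm]))
  obtain ⟨n, hn'⟩ := lift_int (F := F) (a * σ • a) (mem_F hNF h2 hk.sF hk.sN _ (by
    intro m hm
    change m ((a : Qb) * σ (a : Qb)) = (a : Qb) * σ (a : Qb)
    rw [map_mul, ha1 m hm, hmσ m hm]) (by
    change σ ((a : Qb) * σ (a : Qb)) = (a : Qb) * σ (a : Qb)
    rw [map_mul, hσσ, mul_comm]))
  have htP : t ∉ v0.asIdeal := by
    rw [hv, ht]
    intro h
    exact ha3 ((Ideal.add_mem_iff_right _ ha2).1 h)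
  have hnP : n ∈ v0.asIdeal := by
    rw [hv, hn']
    exact Ideal.mul_mem_right _ _ ha2
  obtain ⟨m, hm⟩ := anti hNF h2 hk ((a : Qb) - σ a) (by
    intro m hm
    rw [map_sub, ha1 m hm, hmσ m hm]) (by
    rw [map_sub, hσσ]; ring)
  have ht0 : (t : F) ≠ 0 := by
    intro h
    apply htP
    have : t = 0 := by ext; exact congrArg Subtype.val h
    rw [this]; exact zero_mem _
  have htq : ((t : F) : Qb) = (a : Qb) + σ a := congrArg (fun x : 𝓞 Qb => (x : Qb)) ht
  have hnq : ((n : F) : Qb) = (a : Qb) * σ a := congrArg (fun x : 𝓞 Qb => (x : Qb)) hn'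
  have hkey : z * m ^ 2 = (t : F) ^ 2 - 4 * (n : F) := by
    apply Subtype.ext
    change (z : Qb) * (m : Qb) ^ 2 = ((t : F) : Qb) ^ 2 - 4 * ((n : F) : Qb)
    rw [hz, htq, hnq, show β ^ 2 * (m : Qb) ^ 2 = ((m : Qb) * β) ^ 2 by ring, ← hm]
    ring
  refine ⟨m / (t : F), ?_⟩
  have h9 : z * (m / (t : F)) ^ 2 - 1 = -(4 * (n : F) / (t : F) ^ 2) := by
    rw [div_pow, ← mul_div_assoc, hkey]
    field_simp
    ring
  rw [h9, Valuation.map_neg, map_div₀, map_mul, map_pow]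
  have h10 : v0.valuation F (t : F) = 1 := (HeightOneSpectrum.valuation_eq_one_iff_notMem _).2 htP
  have h11 : v0.valuation F (n : F) < 1 := (HeightOneSpectrum.valuation_lt_one_iff_mem _ _).2 hnP
  rw [h10, one_pow, div_one]
  have h12 : v0.valuation F (4 : F) ≠ 0 := by
    rw [Valuation.ne_zero_iff]
    norm_num
  calc v0.valuation F 4 * v0.valuation F (n : F) < v0.valuation F 4 * 1 :=
        mul_lt_mul_of_pos_left h11 (zero_lt_iff.2 h12)
    _ = v0.valuation F 4 := mul_one _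

/-- normalization at a prime with odd valuation: `s ∉ v`, `s^2 c^2 z = w` integral of valuation one -/
theorem normalize {K : Type*} [Field K] [NumberField K] (v : HeightOneSpectrum (𝓞 K)) (z : K) (hz0 : z ≠ 0)
    (hodd : ¬ IsSquare (v.valuation K z)) :
    ∃ (c : K) (w : 𝓞 K), c ≠ 0 ∧ c ^ 2 * z = (w : K) ∧ v.valuation K (w : K) = WithZero.exp (-1 : ℤ) := by
  obtain ⟨π, hπ⟩ := v.valuation_exists_uniformizer K
  have hv0 : v.valuation K z ≠ 0 := (Valuation.ne_zero_iff _).2 hz0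
  obtain ⟨n, hn⟩ : ∃ n : ℤ, v.valuation K z = WithZero.exp n := ⟨_, (WithZero.exp_log hv0).symm⟩
  have hn1 : ¬ Even n := by
    rintro ⟨k, hk⟩
    exact hodd ⟨WithZero.exp k, by rw [hn, hk, WithZero.exp_add]⟩
  rw [Int.not_even_iff_odd] at hn1
  obtain ⟨k, hk⟩ := hn1
  have hπ0 : π ≠ 0 := by
    rintro rfl
    rw [map_zero] at hπ
    exact WithZero.exp_ne_zero hπ.symm
  have h1 : v.valuation K ((π ^ (k + 1)) ^ 2 * z) = WithZero.exp (-1 : ℤ) := by
    rw [map_mul, map_pow, map_zpow₀, hπ, hn, ← WithZero.exp_zsmul, ← WithZero.exp_nsmul, ← WithZero.exp_add]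
    congr 1
    simp only [smul_eq_mul, nsmul_eq_mul]
    push_cast
    omega
  have h2 : v.valuation K ((π ^ (k + 1)) ^ 2 * z) ≤ 1 := by
    rw [h1, ← WithZero.exp_zero, WithZero.exp_le_exp]
    norm_num
  obtain ⟨x, ⟨d, hd⟩, hxd⟩ := v.exists_primeCompl_mul_eq_of_integer _ h2
  have hd' : v.valuation K (algebraMap (𝓞 K) K d) = 1 :=
    (HeightOneSpectrum.valuation_eq_one_iff_notMem _).2 hd
  have hd0 : (algebraMap (𝓞 K) K d) ≠ 0 := by
    intro h
    rw [h, map_zero] at hd'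
    exact zero_ne_one hd'
  have hmul : ((x * d : 𝓞 K) : K) = (π ^ (k + 1)) ^ 2 * z * (algebraMap (𝓞 K) K d) * (algebraMap (𝓞 K) K d) := by
    have := (algebraMap (𝓞 K) K).map_mul x d
    rw [← hxd] at this
    exact this
  refine ⟨(algebraMap (𝓞 K) K d) * π ^ (k + 1), x * d, mul_ne_zero hd0 (zpow_ne_zero _ hπ0), ?_, ?_⟩
  · rw [hmul]
    ring
  · rw [hmul, map_mul, map_mul, hd', mul_one, mul_one, h1]

/-- inertia: `β^2` has even valuation outside `2` and `S` -/
theorem ine_step (hLift : StLift) [NumberField F] (S : Finset ℕ)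
    (hNF : N ≤ GF F) (hn : ∀ g ∈ GF F, ∀ n ∈ N, g * n * g⁻¹ ∈ N) (ho : IsOpen (N : Set GQ))
    (h2 : N.relIndex (GF F) = 2) (hk : Kum F N σ β) (hI : ∀ P, Out 2 S P → GF F ⊓ Ine P ≤ N) (z : F)
    (hz : (z : Qb) = β ^ 2) (hz0 : z ≠ 0) (v : HeightOneSpectrum (𝓞 F)) (hv2 : (2 : 𝓞 F) ∉ v.asIdeal)
    (hvS : ∀ p ∈ S, (p : 𝓞 F) ∉ v.asIdeal) : IsSquare (v.valuation F z) := by
  by_contra hodd
  obtain ⟨c, w, hc0, hcw, hvw⟩ := normalize v z hz0 hodd
  have : v.asIdeal.IsMaximal := v.isMaximal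
  obtain ⟨P, hPmax, hPv⟩ := Ideal.exists_maximal_ideal_liesOver_of_isIntegral (S := 𝓞 Qb) v.asIdeal
  have hover : ∀ x : 𝓞 F, x ∈ v.asIdeal ↔ algebraMap (𝓞 F) (𝓞 Qb) x ∈ P := by
    intro x
    rw [hPv.over]
    rfl
  have hout : Out 2 S P := by
    refine ⟨hPmax, ?_, ?_⟩
    · intro h
      apply hv2
      rw [hover]
      convert h using 1
      exact map_ofNat _ 2
    · intro p hp h
      apply hvS p hp
      rw [hover]
      convert h using 1
      simp
  have hIP := hI P hout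
  -- `b = c β` is an integer
  have hb2 : ((c : Qb) * β) ^ 2 = ((w : F) : Qb) := by
    rw [mul_pow, ← hz]
    exact congrArg Subtype.val hcw
  have hc0' : (c : Qb) ≠ 0 := fun h => hc0 (Subtype.ext h)
  have hss : σ * σ ∈ N := mul_mem_of_not F N hNF h2 σ σ hk.sF hk.sF hk.sN hk.sN
  have hL := hLift F (IntermediateField.fixedField N) (by
      intro x hx
      rw [IntermediateField.mem_fixedField_iff]
      intro g hg
      exact fixed_of_mem F x hx g (hNF hg)) (by
      rw [GF_fixed N ho]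
      exact hn) P hPmax σ hk.sF (by
      intro a ha
      rw [IntermediateField.mem_fixedField_iff] at ha
      have hσσ : σ (σ (a : Qb)) = a := by
        rw [← AlgEquiv.mul_apply]; exact ha _ hss
      have hmσ : ∀ m ∈ N, m (σ (a : Qb)) = σ a := by
        intro m hm
        have h4 : σ⁻¹ * m * σ ∈ N := by
          have := hn σ⁻¹ (inv_mem hk.sF) m hm
          rwa [inv_inv] at this
        have h5 := ha _ h4
        have : m (σ (a : Qb)) = σ ((σ⁻¹ * m * σ) (a : Qb)) := by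
          rw [← AlgEquiv.mul_apply, ← AlgEquiv.mul_apply]
          congr 1
          group
        rw [this, h5]
      obtain ⟨m0, hm0⟩ := anti hNF h2 hk (σ a - (a : Qb)) (by
        intro m hm
        rw [map_sub, ha m hm, hmσ m hm]) (by
        rw [map_sub, hσσ]; ring)
      -- the square of `d = σ a - a`
      obtain ⟨e, he⟩ := lift_int (F := F) ((σ • a - a) ^ 2) (by
        change (σ (a : Qb) - (a : Qb)) ^ 2 ∈ F
        rw [hm0, mul_pow, ← hz]
        exact mul_mem (pow_mem m0.2 2) z.2)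
      have heq : (e : F) = (m0 / c) ^ 2 * (w : F) := by
        apply Subtype.ext
        have h6 : ((e : F) : Qb) = (σ (a : Qb) - (a : Qb)) ^ 2 := congrArg (fun x : 𝓞 Qb => (x : Qb)) he
        change ((e : F) : Qb) = ((m0 : Qb) / (c : Qb)) ^ 2 * ((w : F) : Qb)
        rw [h6, hm0, ← hb2]
        field_simp
      have hev : e ∈ v.asIdeal := by
        rw [← HeightOneSpectrum.valuation_lt_one_iff_mem (K := F)]
        have h7 : v.valuation F (e : F) ≤ 1 := v.valuation_le_one e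
        have h8 : v.valuation F (e : F) = (v.valuation F (m0 / c)) ^ 2 * WithZero.exp (-1 : ℤ) := by
          rw [heq, map_mul, map_pow, hvw]
        by_cases hm : v.valuation F (m0 / c) = 0
        · rw [h8, hm]
          simp
        · obtain ⟨k, hk⟩ : ∃ k : ℤ, v.valuation F (m0 / c) = WithZero.exp k := ⟨_, (WithZero.exp_log hm).symm⟩
          rw [h8, hk, ← WithZero.exp_nsmul, ← WithZero.exp_add, ← WithZero.exp_zero, WithZero.exp_le_exp] at h7
          rw [h8, hk, ← WithZero.exp_nsmul, ← WithZero.exp_add, ← WithZero.exp_zero, WithZero.exp_lt_exp]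
          simp only [nsmul_eq_mul] at h7 ⊢
          push_cast at h7 ⊢
          omega
      have h9 : (σ • a - a) ^ 2 ∈ P := by
        rw [← he, ← hover]
        exact hev
      exact hPmax.isPrime.mem_of_pow_mem 2 h9)
  obtain ⟨τ, hτ, hτσ⟩ := hL
  rw [GF_fixed N ho] at hτσ
  exact hk.sN (by simpa using N.mul_mem (hIP hτ) hτσ)

end Pool.RG.CC

namespace Pool.RG

open Pool.RG.CC in
/-- Case C gives `Good`. -/
theorem goodC (hProf : StProf) (hLift : StLift) (l : ℕ) (S : Finset ℕ) (F : IntermediateField ℚ Qb) [NumberField F]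
    (P0 : Ideal (𝓞 Qb)) (hP0 : P0.IsMaximal) (hC : CaseC l S F P0) : Good l S F P0 := by
  obtain ⟨rfl, hC⟩ := hC
  intro N hNF hn ho h2 hI hD
  obtain ⟨σ, β, hk⟩ := exists_kum F N hNF hn ho h2
  obtain ⟨z, hz, hz0, hns⟩ := exists_z hNF h2 hk
  -- the prime below
  obtain ⟨v0, hv0⟩ : ∃ v0 : HeightOneSpectrum (𝓞 F), Below F P0 v0 := by
    have := hP0
    have : (P0.under (𝓞 F)).IsMaximal := inferInstance
    exact ⟨⟨P0.under (𝓞 F), inferInstance, Ring.ne_bot_of_isMaximal_of_not_isField inferInstance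
      (RingOfIntegers.not_isField F)⟩, fun x => Iff.rfl⟩
  refine hns (hC v0 hv0 z hz0 (fun v hv2 hvS => ?_) ?_)
  · exact ine_step hLift S hNF hn ho h2 hk hI z hz hz0 v hv2 hvS
  · exact dec_step hProf P0 hP0 v0 hv0 hNF hn ho h2 hk hD z hz

end Pool.RG
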