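import Mathlib

/-!
# The cubic field of discriminant `-44` (helper54), part A: trace, norm, class number one, units

`K` is a number field of degree three with `y ∈ K`, `y^3 + 2 y^2 + 2 y + 2 = 0` (`θ = y + 1` is a root of
`x^3 - x^2 + x + 1`).
-/

set_option autoImplicit false

open NumberField IsDedekindDomain Polynomial Module

namespace Pool.RG.Cubic

/-- the polynomial -/
noncomputable def fZ : ℤ[X] := X ^ 3 + 2 * X ^ 2 + 2 * X + 2

theorem fZ_natDegree : fZ.natDegree = 3 := by
  unfold fZ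
  compute_degree!

theorem fZ_monic : fZ.Monic := by
  unfold fZ
  monicity!

theorem fZ_irr : Irreducible (fZ.map (Int.castRingHom ℚ)) := by
  have hdeg : fZ.degree = 3 := by
    rw [Polynomial.degree_eq_natDegree fZ_monic.ne_zero, fZ_natDegree]; rfl
  have h1 : Irreducible fZ := by
    have hP : (Ideal.span {(2 : ℤ)}).IsPrime := by
      rw [Ideal.span_singleton_prime (by norm_num)]
      exact Int.prime_two
    refine Polynomial.irreducible_of_eisenstein_criterion hP ?_ ?_ ?_ ?_ fZ_monic.isPrimitive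
    · rw [fZ_monic.leadingCoeff, ← Ideal.eq_top_iff_one]
      exact hP.ne_top
    · intro n hn
      rw [hdeg] at hn
      have hn3 : n < 3 := by exact_mod_cast hn
      rw [Ideal.mem_span_singleton]
      interval_cases n <;>
        · unfold fZ
          simp [coeff_X, coeff_ofNat_mul, coeff_X_pow]
    · rw [hdeg]; norm_num
    · rw [Ideal.span_singleton_pow, Ideal.mem_span_singleton]
      unfold fZ
      simp [coeff_X, coeff_ofNat_mul, coeff_X_pow]
  exact (Polynomial.IsPrimitive.Int.irreducible_iff_irreducible_map_cast fZ_monic.isPrimitive).1 h1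

variable {K : Type} [Field K] [NumberField K] (y : K) (hy : y ^ 3 + 2 * y ^ 2 + 2 * y + 2 = 0)

include hy in
theorem minpoly_y : minpoly ℚ y = fZ.map (Int.castRingHom ℚ) := by
  symm
  refine minpoly.eq_of_irreducible_of_monic fZ_irr ?_ (fZ_monic.map _)
  have h2 : aeval y (2 : ℚ[X]) = 2 := map_ofNat _ 2
  unfold fZ
  simp [h2, hy]

include hy in
theorem lin (a b c : ℚ) (h : (a : K) + b * y + c * y ^ 2 = 0) : a = 0 ∧ b = 0 ∧ c = 0 := by
  by_contra hcon
  set q : ℚ[X] := C c * X ^ 2 + C b * X + C a with hq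
  have h0 : q ≠ 0 := by
    intro h0
    apply hcon
    have h1 : q.coeff 0 = a := by simp [hq, coeff_X]
    have h2 : q.coeff 1 = b := by simp [hq]
    have h3 : q.coeff 2 = c := by simp [hq]
    rw [h0] at h1 h2 h3
    simp at h1 h2 h3
    exact ⟨h1.symm, h2.symm, h3.symm⟩
  have h1 : aeval y q = 0 := by
    simp [hq]
    linear_combination h
  have h2 := minpoly.degree_le_of_ne_zero ℚ y h0 h1
  rw [minpoly_y y hy, fZ_monic.degree_map] at h2
  rw [Polynomial.degree_eq_natDegree fZ_monic.ne_zero, fZ_natDegree] at h2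
  have h3 : q.degree ≤ 2 := by
    rw [hq]
    compute_degree
  have := h2.trans h3
  revert this
  decide

/-- the matrix of multiplication by `a + b y + c y^2` -/
def Mx (a b c : ℚ) : Matrix (Fin 3) (Fin 3) ℚ :=
  !![a, -2*c, -2*b+4*c; b, a-2*c, -2*b+2*c; c, b-2*c, a-2*b+2*c]

include hy in
theorem exists_basis (h3 : finrank ℚ K = 3) : ∃ B : Basis (Fin 3) ℚ K, (∀ i, B i = y ^ (i : ℕ)) ∧
    ∀ a b c : ℚ, Algebra.leftMulMatrix B ((a : K) + b * y + c * y ^ 2) = Mx a b c := by
  have hli : LinearIndependent ℚ (fun i : Fin 3 => y ^ (i : ℕ)) := by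
    rw [Fintype.linearIndependent_iff]
    intro g hg
    rw [Fin.sum_univ_three] at hg
    have := lin y hy (g 0) (g 1) (g 2) (by
      simp only [Algebra.smul_def] at hg
      simpa using hg)
    intro i
    fin_cases i
    · exact this.1
    · exact this.2.1
    · exact this.2.2
  let B := basisOfLinearIndependentOfCardEqFinrank hli (by rw [h3]; rfl)
  have hB : ∀ i, B i = y ^ (i : ℕ) := fun i => by
    simp [B]
  refine ⟨B, hB, fun a b c => ?_⟩
  have key : ∀ j, ((a : K) + b * y + c * y ^ 2) * B j = ∑ i, Mx a b c i j • B i := by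
    intro j
    rw [Fin.sum_univ_three, hB, hB, hB, hB]
    fin_cases j
    · simp [Mx, Algebra.smul_def]
    · simp [Mx, Algebra.smul_def]
      linear_combination (c : K) * hy
    · simp [Mx, Algebra.smul_def]
      linear_combination ((b : K) - 2 * c + c * y) * hy
  ext i j
  rw [Algebra.leftMulMatrix_eq_repr_mul, key]
  simp [Finsupp.single_apply]

include hy in
theorem trace_eq (h3 : finrank ℚ K = 3) (a b c : ℚ) :
    Algebra.trace ℚ K ((a : K) + b * y + c * y ^ 2) = 3 * a - 2 * b := by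
  obtain ⟨B, _, h⟩ := exists_basis y hy h3
  rw [Algebra.trace_eq_matrix_trace B, h]
  simp [Mx, Matrix.trace, Fin.sum_univ_three]
  ring

include hy in
theorem norm_eq (h3 : finrank ℚ K = 3) (a b c : ℚ) :
    Algebra.norm ℚ ((a : K) + b * y + c * y ^ 2) = (Mx a b c).det := by
  obtain ⟨B, _, h⟩ := exists_basis y hy h3
  rw [Algebra.norm_eq_matrix_det B, h]

omit [NumberField K] in
include hy in
theorem isInt : IsIntegral ℤ y := by
  refine ⟨fZ, fZ_monic, ?_⟩
  have h2 : eval₂ (algebraMap ℤ K) y (2 : ℤ[X]) = 2 := by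
    have : (2 : ℤ[X]) = C 2 := rfl
    rw [this, eval₂_C]
    simp
  unfold fZ
  simp only [eval₂_add, eval₂_mul, eval₂_pow, eval₂_X, h2]
  exact hy

include hy in
theorem discr_dvd (h3 : finrank ℚ K = 3) : ∃ m : ℤ, -44 = m ^ 2 * discr K := by
  obtain ⟨B, hB, _⟩ := exists_basis y hy h3
  let e : Free.ChooseBasisIndex ℤ (𝓞 K) ≃ Fin 3 := Fintype.equivFinOfCardEq (by
    rw [← Module.finrank_eq_card_chooseBasisIndex, RingOfIntegers.rank, h3])
  let b₀ : Basis (Fin 3) ℚ K := (integralBasis K).reindex e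
  have hb₀ : Algebra.discr ℚ b₀ = discr K := by
    rw [coe_discr, Basis.coe_reindex, Algebra.discr_reindex]
  have hint : ∀ i j, ∃ n : ℤ, b₀.toMatrix B i j = n := by
    intro i j
    rw [Basis.toMatrix_apply, Basis.repr_reindex_apply, hB]
    have h1 : y ^ (j : ℕ) = algebraMap (𝓞 K) K ⟨y ^ (j : ℕ), (isInt y hy).pow _⟩ := rfl
    rw [h1, integralBasis_repr_apply]
    exact ⟨_, rfl⟩
  choose M hM using hint
  have hdet : (b₀.toMatrix B).det = ((Matrix.of M).det : ℤ) := by
    have : b₀.toMatrix B = (Matrix.of M).map (Int.castRingHom ℚ) := by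
      ext i j
      rw [hM]; rfl
    rw [this]
    exact ((Int.castRingHom ℚ).map_det _).symm
  have h5 : Algebra.discr ℚ B = (b₀.toMatrix B).det ^ 2 * Algebra.discr ℚ b₀ := by
    rw [← Algebra.discr_of_matrix_vecMul, Basis.toMatrix_map_vecMul]
  have h6 : Algebra.discr ℚ B = -44 := by
    have ht : ∀ i j, Algebra.traceMatrix ℚ B i j = !![3, -2, 0; -2, 0, -2; 0, -2, (8 : ℚ)] i j := by
      intro i j
      rw [Algebra.traceMatrix_apply, Algebra.traceForm_apply, hB, hB]
      have t0 := trace_eq y hy h3 1 0 0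
      have t1 := trace_eq y hy h3 0 1 0
      have t2 := trace_eq y hy h3 0 0 1
      have t3 := trace_eq y hy h3 (-2) (-2) (-2)
      have t4 := trace_eq y hy h3 4 2 2
      have e3 : y ^ 3 = ((-2 : ℚ) : K) + ((-2 : ℚ) : K) * y + ((-2 : ℚ) : K) * y ^ 2 := by
        push_cast
        linear_combination hy
      have e4 : y ^ 4 = ((4 : ℚ) : K) + ((2 : ℚ) : K) * y + ((2 : ℚ) : K) * y ^ 2 := by
        push_cast
        linear_combination (y - 2) * hy
      rw [← e3] at t3
      rw [← e4] at t4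
      norm_num at t0 t1 t2 t3 t4
      have t2' : Algebra.trace ℚ K (y * y) = 0 := by rw [← sq, t2]
      fin_cases i <;> fin_cases j <;> simp [← pow_succ, ← pow_succ', ← pow_add, t0, t1, t2, t3, t4, t2']
    rw [Algebra.discr_def]
    have : Algebra.traceMatrix ℚ B = !![3, -2, 0; -2, 0, -2; 0, -2, (8 : ℚ)] := by
      ext i j
      exact ht i j
    rw [this, Matrix.det_fin_three]
    simp
    norm_num
  refine ⟨(Matrix.of M).det, ?_⟩
  rw [h6, hdet, hb₀] at h5
  exact_mod_cast h5

include hy in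
/-- there is a complex place -/
theorem complex_pos (h3 : finrank ℚ K = 3) : 0 < InfinitePlace.nrComplexPlaces K := by
  by_contra hcon
  have h0 : InfinitePlace.nrComplexPlaces K = 0 := by omega
  have hreal : ∀ φ : K →+* ℂ, ComplexEmbedding.IsReal φ := by
    intro φ
    by_contra hφ
    have h1 : (InfinitePlace.mk φ).IsComplex := by
      rw [InfinitePlace.isComplex_mk_iff]
      exact hφ
    have h2 : IsTotallyReal K := NumberField.nrComplexPlaces_eq_zero_iff.1 h0
    exact (InfinitePlace.not_isReal_iff_isComplex.2 h1) (h2.isReal _)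
  have t2 := trace_eq y hy h3 0 0 1
  norm_num at t2
  have h1 := trace_eq_sum_embeddings (K := ℚ) (L := K) ℂ (x := y ^ 2)
  rw [t2, map_zero] at h1
  have h4 : ∀ σ : K →ₐ[ℚ] ℂ, ∃ r : ℝ, σ y = r := by
    intro σ
    have h5 := hreal σ.toRingHom
    rw [ComplexEmbedding.isReal_iff] at h5
    have h6 : (starRingEnd ℂ) (σ y) = σ y := by
      have := congrArg (fun g : K →+* ℂ => g y) h5
      exact this
    exact ⟨(σ y).re, (Complex.conj_eq_iff_re.1 h6).symm⟩
  choose r hr using h4
  have h7 : ∑ σ : K →ₐ[ℚ] ℂ, r σ ^ 2 = 0 := by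
    have : ((∑ σ : K →ₐ[ℚ] ℂ, r σ ^ 2 : ℝ) : ℂ) = 0 := by
      push_cast
      rw [h1]
      refine Finset.sum_congr rfl fun σ _ => ?_
      rw [map_pow, hr]
    exact_mod_cast this
  have hne : Nonempty (K →ₐ[ℚ] ℂ) := by
    have : Fintype.card (K →ₐ[ℚ] ℂ) = finrank ℚ K := AlgHom.card ℚ K ℂ
    rw [h3] at this
    exact Fintype.card_pos_iff.1 (by omega)
  obtain ⟨σ⟩ := hne
  have h8 : r σ ^ 2 = 0 := (Finset.sum_eq_zero_iff_of_nonneg (fun i _ => sq_nonneg (r i))).1 h7 σ
    (Finset.mem_univ _)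
  have h9 : σ y = 0 := by
    rw [hr, pow_eq_zero_iff two_ne_zero |>.1 h8]
    simp
  have h10 : y = 0 := (map_eq_zero σ).1 h9
  rw [h10] at hy
  norm_num at hy

include hy in
theorem pid (h3 : finrank ℚ K = 3) : IsPrincipalIdealRing (𝓞 K) := by
  apply RingOfIntegers.isPrincipalIdealRing_of_abs_discr_lt
  obtain ⟨m, hm⟩ := discr_dvd y hy h3
  have h1 : |discr K| ≤ 44 := by
    have h2 : m ≠ 0 := by
      rintro rfl
      norm_num at hm
    have h4 : (1 : ℤ) ≤ m ^ 2 := by
      have : 0 < m ^ 2 := by positivity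
      omega
    have h5 : m ^ 2 * |discr K| = 44 := by
      rw [← abs_of_nonneg (sq_nonneg m), ← abs_mul, ← hm]
      norm_num
    nlinarith [abs_nonneg (discr K)]
  have h2 : InfinitePlace.nrComplexPlaces K = 1 := by
    have h4 := complex_pos y hy h3
    have h5 := InfinitePlace.card_add_two_mul_card_eq_rank K
    omega
  rw [h2, h3]
  have h6 : (|discr K| : ℝ) ≤ 44 := by exact_mod_cast h1
  have h7 : (3.14 : ℝ) < Real.pi := Real.pi_gt_d2
  have h8 : (2 * (Real.pi / 4) ^ 1 * ((3 : ℕ) ^ 3 / (Nat.factorial 3 : ℕ) : ℝ)) ^ 2 = (9 * Real.pi / 4) ^ 2 := by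
    norm_num [Nat.factorial]
    ring
  have h9 : (44 : ℝ) < (9 * Real.pi / 4) ^ 2 := by nlinarith
  push_cast
  calc |(discr K : ℝ)| ≤ 44 := h6
    _ < (9 * Real.pi / 4) ^ 2 := h9
    _ = _ := by rw [← h8]; norm_num

end Pool.RG.Cubic
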