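import Pool.Agent.Helper54.DG.CubicA
import Pool.Agent.Helper3.HY.M_Ce

/-!
# The cubic field of discriminant `-44` (helper54), part B: units and primes
-/

set_option autoImplicit false

open NumberField IsDedekindDomain Polynomial Module
open scoped nonZeroDivisors

namespace Pool.RG.Cubic

variable {K : Type} [Field K] [NumberField K] (y : K) (hy : y ^ 3 + 2 * y ^ 2 + 2 * y + 2 = 0)

include hy in
theorem rank_eq (h3 : finrank ℚ K = 3) : Units.rank K = 1 := by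
  have h4 := complex_pos y hy h3
  have h5 := InfinitePlace.card_add_two_mul_card_eq_rank K
  have h6 := InfinitePlace.card_eq_nrRealPlaces_add_nrComplexPlaces K
  rw [Units.rank]
  omega

include hy in
theorem exists_fund (h3 : finrank ℚ K = 3) : ∃ ε : (𝓞 K)ˣ, ∀ u : (𝓞 K)ˣ, ∃ k : ℤ, u = ε ^ k ∨ u = -ε ^ k := by
  have h1 := rank_eq y hy h3
  have h0 : 0 < Units.rank K := by omega
  refine ⟨Units.fundSystem K ⟨0, h0⟩, fun u => ?_⟩
  obtain ⟨⟨ζ, e⟩, hu, -⟩ := Units.exist_unique_eq_mul_prod K u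
  have h2 : ∏ i, Units.fundSystem K i ^ e i = Units.fundSystem K ⟨0, h0⟩ ^ e ⟨0, h0⟩ := by
    have : Unique (Fin (Units.rank K)) := by
      rw [h1]; infer_instance
    rw [Fintype.prod_unique]
    have : (default : Fin (Units.rank K)) = ⟨0, h0⟩ := Subsingleton.elim _ _
    rw [this]
  refine ⟨e ⟨0, h0⟩, ?_⟩
  simp only at hu
  rw [h2] at hu
  rcases Units.torsion_eq_one_or_neg_one_of_odd_finrank (by rw [h3]; decide) ζ with h | h
  · left
    rw [hu, h, one_mul]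
  · right
    rw [hu, h, neg_one_mul]

include hy in
theorem unit_class (h3 : finrank ℚ K = 3) (θ : (𝓞 K)ˣ) (hn : ∀ w : (𝓞 K)ˣ, θ ≠ w ^ 2)
    (hn' : ∀ w : (𝓞 K)ˣ, -θ ≠ w ^ 2) (u : (𝓞 K)ˣ) :
    ∃ (a b : Bool) (w : (𝓞 K)ˣ), u = (if a then -1 else 1) * (if b then θ else 1) * w ^ 2 := by
  obtain ⟨ε, hε⟩ := exists_fund y hy h3
  obtain ⟨m, hm⟩ := hε θ
  have hodd : Odd m := by
    by_contra hcon
    rw [Int.not_odd_iff_even] at hcon
    obtain ⟨r, hr⟩ := hcon
    have h1 : ε ^ m = (ε ^ r) ^ 2 := by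
      rw [hr, zpow_add, sq]
    rcases hm with h | h
    · exact hn (ε ^ r) (by rw [h, h1])
    · exact hn' (ε ^ r) (by rw [h, neg_neg, h1])
  obtain ⟨k, hk⟩ := hε u
  rcases Int.even_or_odd k with he | ho
  · obtain ⟨r, hr⟩ := he
    have h1 : ε ^ k = (ε ^ r) ^ 2 := by rw [hr, zpow_add, sq]
    rcases hk with h | h
    · exact ⟨false, false, ε ^ r, by rw [h, h1]; simp⟩
    · exact ⟨true, false, ε ^ r, by rw [h, h1]; simp⟩
  · obtain ⟨r, hr⟩ : Even (k - m) := ho.sub_odd hodd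
    have h1 : ε ^ k = ε ^ m * (ε ^ r) ^ 2 := by
      rw [sq, ← zpow_add, ← hr, ← zpow_add]
      congr 1
      ring
    rcases hk with h | h <;> rcases hm with h' | h'
    · exact ⟨false, true, ε ^ r, by rw [h, h1, ← h']; simp⟩
    · exact ⟨true, true, ε ^ r, by rw [h, h1, h']; simp⟩
    · exact ⟨true, true, ε ^ r, by rw [h, h1, ← h']; simp⟩
    · exact ⟨false, true, ε ^ r, by rw [h, h1, h']; simp⟩

/-- two non squares -/
theorem isSquare_mul_of_not (a b : WithZero (Multiplicative ℤ)) (ha : ¬ IsSquare a) (hb : ¬ IsSquare b) :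
    IsSquare (a * b) := by
  have ha0 : a ≠ 0 := fun h => ha ⟨0, by rw [h, mul_zero]⟩
  have hb0 : b ≠ 0 := fun h => hb ⟨0, by rw [h, mul_zero]⟩
  obtain ⟨m, hm⟩ : ∃ m : ℤ, a = WithZero.exp m := ⟨_, (WithZero.exp_log ha0).symm⟩
  obtain ⟨n, hn⟩ : ∃ n : ℤ, b = WithZero.exp n := ⟨_, (WithZero.exp_log hb0).symm⟩
  have h1 : Odd m := by
    by_contra hcon
    rw [Int.not_odd_iff_even] at hcon
    obtain ⟨r, hr⟩ := hcon
    exact ha ⟨WithZero.exp r, by rw [hm, hr, WithZero.exp_add]⟩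
  have h2 : Odd n := by
    by_contra hcon
    rw [Int.not_odd_iff_even] at hcon
    obtain ⟨r, hr⟩ := hcon
    exact hb ⟨WithZero.exp r, by rw [hn, hr, WithZero.exp_add]⟩
  obtain ⟨r, hr⟩ := h1.add_odd h2
  exact ⟨WithZero.exp r, by rw [hm, hn, ← WithZero.exp_add, hr, WithZero.exp_add]⟩

/-- an element of prime norm generates a prime -/
theorem span_max (x : 𝓞 K) (p : ℕ) (hp : p.Prime) (hx : (Algebra.norm ℤ x).natAbs = p) :
    (Ideal.span {x}).IsMaximal ∧ x ≠ 0 := by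
  have h0 : x ≠ 0 := by
    rintro rfl
    rw [Algebra.norm_zero] at hx
    simp at hx
    exact hp.ne_zero hx.symm
  refine ⟨?_, h0⟩
  have h1 : (Ideal.span {x}).IsPrime := by
    apply Ideal.isPrime_of_irreducible_absNorm
    rw [Ideal.absNorm_span_singleton, hx]
    exact hp
  exact h1.isMaximal (by rwa [Ne, Ideal.span_singleton_eq_bot])

/-- the prime generated by an element of prime norm -/
noncomputable def vv (x : 𝓞 K) (h : (Ideal.span {x}).IsMaximal ∧ x ≠ 0) : HeightOneSpectrum (𝓞 K) :=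
  ⟨Ideal.span {x}, h.1.isPrime, by rw [Ne, Ideal.span_singleton_eq_bot]; exact h.2⟩

omit [NumberField K] in
theorem eq_vv (x : 𝓞 K) (h : (Ideal.span {x}).IsMaximal ∧ x ≠ 0) (v : HeightOneSpectrum (𝓞 K))
    (hv : x ∈ v.asIdeal) : v = vv x h := by
  apply HeightOneSpectrum.ext
  exact (h.1.eq_of_le v.isPrime.ne_top ((Ideal.span_singleton_le_iff_mem _).2 hv)).symm

theorem vv_val (x : 𝓞 K) (h : (Ideal.span {x}).IsMaximal ∧ x ≠ 0) :
    (vv x h).valuation K (x : K) = WithZero.exp (-1 : ℤ) := by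
  have h1 : (vv x h).valuation K (algebraMap (𝓞 K) K x) = (vv x h).intValuation x :=
    HeightOneSpectrum.valuation_of_algebraMap _ _
  exact h1.trans (HeightOneSpectrum.intValuation_singleton _ h.2 rfl)

theorem not_sq : ¬ IsSquare (WithZero.exp (-1 : ℤ) : WithZero (Multiplicative ℤ)) := by
  rintro ⟨c, hc⟩
  have hc0 : c ≠ 0 := by
    rintro rfl
    rw [mul_zero] at hc
    exact WithZero.exp_ne_zero hc
  obtain ⟨n, hn⟩ : ∃ n : ℤ, c = WithZero.exp n := ⟨_, (WithZero.exp_log hc0).symm⟩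
  rw [hn, ← WithZero.exp_add] at hc
  have := WithZero.exp_injective hc
  omega

/-- an element with even valuations everywhere is a unit up to squares, if the class number is one -/
theorem unit_of_even [IsPrincipalIdealRing (𝓞 K)] (z : K) (hz : z ≠ 0)
    (h : ∀ v : HeightOneSpectrum (𝓞 K), IsSquare (v.valuation K z)) :
    ∃ (u : (𝓞 K)ˣ) (w : K), w ≠ 0 ∧ z * w ^ 2 = ((u : 𝓞 K) : K) := by
  obtain ⟨J, hJ0, hJ⟩ := Pool.Agent.Helper3.HY.Ce.exists_sqrt (R := 𝓞 K) z hz h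
  obtain ⟨w, hw⟩ : ∃ w : K, J = FractionalIdeal.spanSingleton (𝓞 K)⁰ w :=
    ⟨_, FractionalIdeal.eq_spanSingleton_of_principal J⟩
  have hw0 : w ≠ 0 := by
    rintro rfl
    rw [FractionalIdeal.spanSingleton_zero] at hw
    exact hJ0 hw
  have h1 : FractionalIdeal.spanSingleton (𝓞 K)⁰ (z * w ^ 2) = 1 := by
    rw [hw, FractionalIdeal.spanSingleton_mul_spanSingleton, FractionalIdeal.spanSingleton_mul_spanSingleton] at hJ
    rw [← hJ]
    congr 1
    ring
  have hne : z * w ^ 2 ≠ 0 := mul_ne_zero hz (pow_ne_zero _ hw0)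
  have h2 : FractionalIdeal.spanSingleton (𝓞 K)⁰ (z * w ^ 2)⁻¹ = 1 := by
    rw [← FractionalIdeal.spanSingleton_inv, h1, inv_one]
  have h3 : z * w ^ 2 ∈ (1 : FractionalIdeal (𝓞 K)⁰ K) := by
    rw [← h1]; exact FractionalIdeal.mem_spanSingleton_self _ _
  have h4 : (z * w ^ 2)⁻¹ ∈ (1 : FractionalIdeal (𝓞 K)⁰ K) := by
    rw [← h2]; exact FractionalIdeal.mem_spanSingleton_self _ _
  rw [FractionalIdeal.mem_one_iff] at h3 h4
  obtain ⟨a, ha⟩ := h3
  obtain ⟨b, hb⟩ := h4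
  have hab : a * b = 1 := by
    apply FaithfulSMul.algebraMap_injective (𝓞 K) K
    rw [map_mul, ha, hb, map_one, mul_inv_cancel₀ hne]
  exact ⟨⟨a, b, hab, by rw [mul_comm, hab]⟩, w, hw0, ha.symm⟩

end Pool.RG.Cubic
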