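import Pool.Agent.Helper54.DG.CubicB

/-!
# The cubic field of discriminant `-44` (helper54), part C: the local computation at the prime above two
-/

set_option autoImplicit false

open NumberField IsDedekindDomain Polynomial Module

namespace Pool.RG.Cubic

/-- product of `p0 + p1 Y + p2 Y^2` and `q0 + q1 Y + q2 Y^2` -/
def mulP (p q : ℤ × ℤ × ℤ) : ℤ × ℤ × ℤ :=
  (p.1 * q.1 - 2 * (p.2.1 * q.2.2 + p.2.2 * q.2.1) + 4 * (p.2.2 * q.2.2),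
   p.1 * q.2.1 + p.2.1 * q.1 - 2 * (p.2.1 * q.2.2 + p.2.2 * q.2.1) + 2 * (p.2.2 * q.2.2),
   p.1 * q.2.2 + p.2.1 * q.2.1 + p.2.2 * q.1 - 2 * (p.2.1 * q.2.2 + p.2.2 * q.2.1) + 2 * (p.2.2 * q.2.2))

/-- `p0 + p1 Y + p2 Y^2` -/
def EE {R : Type} [CommRing R] (Y : R) (p : ℤ × ℤ × ℤ) : R := p.1 + p.2.1 * Y + p.2.2 * Y ^ 2

theorem EE_mul {R : Type} [CommRing R] (Y : R) (hY : Y ^ 3 + 2 * Y ^ 2 + 2 * Y + 2 = 0) (p q : ℤ × ℤ × ℤ) :
    EE Y (mulP p q) = EE Y p * EE Y q := by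
  unfold EE mulP
  push_cast
  linear_combination (-((p.2.1 : R) * q.2.2 + (p.2.2 : R) * q.2.1) - ((p.2.2 : R) * q.2.2) * (Y - 2)) * hY

/-- the list of the 16 classes -/
def zP (a b d e : Bool) : ℤ × ℤ × ℤ :=
  mulP (mulP (if a then (-1, 0, 0) else (1, 0, 0)) (if b then (1, 1, 0) else (1, 0, 0)))
    (mulP (if d then (1, 2, 0) else (1, 0, 0)) (if e then (3, 2, 1) else (1, 0, 0)))

/-- the representatives `1 + a Y + b Y^2 + c Y^3` -/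
def sP (a b c : Bool) : ℤ × ℤ × ℤ :=
  (1 + (if c then -2 else 0), (if a then 1 else 0) + (if c then -2 else 0), (if b then 1 else 0) + (if c then -2 else 0))

/-- the test -/
def bad (p : ℤ × ℤ × ℤ) : Prop := 8 ∣ p.1 - 1 ∧ 4 ∣ p.2.1 ∧ 4 ∣ p.2.2

instance (p : ℤ × ℤ × ℤ) : Decidable (bad p) := by unfold bad; infer_instance

theorem check : ∀ a b d e a' b' c' : Bool, bad (mulP (zP a b d e) (mulP (sP a' b' c') (sP a' b' c'))) →
    a = false ∧ b = false ∧ d = false ∧ e = false := by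
  decide

section

variable {K : Type} [Field K] [NumberField K] (Y : 𝓞 K) (hY : Y ^ 3 + 2 * Y ^ 2 + 2 * Y + 2 = 0)
  (hmax : (Ideal.span {Y}).IsMaximal)

omit [NumberField K] in
include hY in
theorem two_eq : (2 : 𝓞 K) = -Y * (Y ^ 2 + 2 * Y + 2) := by linear_combination hY

omit [NumberField K] in
include hmax in
theorem not_dvd_one : ¬ Y ∣ 1 := by
  intro h
  exact hmax.ne_top ((Ideal.eq_top_iff_one _).2 (Ideal.mem_span_singleton.2 h))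

omit [NumberField K] in
include hY hmax in
/-- an integer divisible by `Y` is even -/
theorem even_of_dvd (a : ℤ) (h : Y ∣ (a : 𝓞 K)) : ∃ b : ℤ, a = 2 * b := by
  rcases Int.even_or_odd' a with ⟨b, hb | hb⟩
  · exact ⟨b, hb⟩
  · exfalso
    apply not_dvd_one Y hmax
    have h1 : (1 : 𝓞 K) = (a : 𝓞 K) - 2 * (b : 𝓞 K) := by
      rw [hb]; push_cast; ring
    rw [h1]
    refine dvd_sub h (Dvd.dvd.mul_right ?_ _)
    rw [two_eq Y hY]
    exact ⟨-(Y ^ 2 + 2 * Y + 2), by ring⟩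

include hY hmax in
theorem stepE (hY0 : Y ≠ 0) (k : ℕ) (p : ℤ × ℤ × ℤ) (h : Y ^ (k + 1) ∣ EE Y p) :
    ∃ a : ℤ, p.1 = 2 * a ∧ Y ^ k ∣ EE Y (p.2.1 - 2 * a, p.2.2 - 2 * a, -a) := by
  have h1 : Y ∣ EE Y p := (dvd_pow_self Y (Nat.succ_ne_zero k)).trans h
  have h2 : Y ∣ (p.1 : 𝓞 K) := by
    have : (p.1 : 𝓞 K) = EE Y p - Y * (p.2.1 + p.2.2 * Y) := by
      unfold EE; ring
    rw [this]
    exact dvd_sub h1 (dvd_mul_right _ _)
  obtain ⟨a, ha⟩ := even_of_dvd Y hY hmax p.1 h2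
  refine ⟨a, ha, ?_⟩
  have h3 : EE Y p = Y * EE Y (p.2.1 - 2 * a, p.2.2 - 2 * a, -a) := by
    unfold EE
    rw [ha]
    push_cast
    linear_combination (a : 𝓞 K) * hY
  rw [h3, pow_succ'] at h
  exact (mul_dvd_mul_iff_left hY0).1 h

include hY hmax in
theorem bad_of_dvd (hY0 : Y ≠ 0) (p : ℤ × ℤ × ℤ) (h : Y ^ 7 ∣ EE Y p - 1) : bad p := by
  have h0 : EE Y p - 1 = EE Y (p.1 - 1, p.2.1, p.2.2) := by
    unfold EE; push_cast; ring
  rw [h0] at h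
  obtain ⟨a0, e0, h⟩ := stepE Y hY hmax hY0 6 _ h
  obtain ⟨a1, e1, h⟩ := stepE Y hY hmax hY0 5 _ h
  obtain ⟨a2, e2, h⟩ := stepE Y hY hmax hY0 4 _ h
  obtain ⟨a3, e3, h⟩ := stepE Y hY hmax hY0 3 _ h
  obtain ⟨a4, e4, h⟩ := stepE Y hY hmax hY0 2 _ h
  obtain ⟨a5, e5, h⟩ := stepE Y hY hmax hY0 1 _ h
  obtain ⟨a6, e6, h⟩ := stepE Y hY hmax hY0 0 _ h
  simp only at e0 e1 e2 e3 e4 e5 e6
  unfold bad
  refine ⟨?_, ?_, ?_⟩ <;> omega

variable (h01 : ∀ x : 𝓞 K, Y ∣ x ∨ Y ∣ x - 1)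

omit [NumberField K] in
include h01 in
theorem approx (s : 𝓞 K) (hs : ¬ Y ∣ s) : ∃ (a b c : Bool) (t : 𝓞 K),
    s = 1 + (if a then Y else 0) + (if b then Y ^ 2 else 0) + (if c then Y ^ 3 else 0) + Y ^ 4 * t := by
  have h1 : ∀ x : 𝓞 K, ∃ (a : Bool) (t : 𝓞 K), x = (if a then 1 else 0) + Y * t := by
    intro x
    rcases h01 x with ⟨t, ht⟩ | ⟨t, ht⟩
    · exact ⟨false, t, by simp [ht]⟩
    · exact ⟨true, t, by simp [← ht]⟩
  obtain ⟨t0, ht0⟩ := (h01 s).resolve_left hs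
  obtain ⟨a, t1, h2⟩ := h1 t0
  obtain ⟨b, t2, h3⟩ := h1 t1
  obtain ⟨c, t3, h4⟩ := h1 t2
  refine ⟨a, b, c, t3, ?_⟩
  have h5 : s = 1 + Y * t0 := by rw [← ht0]; ring
  rw [h5, h2, h3, h4]
  split_ifs <;> ring

omit [NumberField K] in
include hY in
theorem EE_sP (a b c : Bool) : EE Y (sP a b c) =
    1 + (if a then Y else 0) + (if b then Y ^ 2 else 0) + (if c then Y ^ 3 else 0) := by
  unfold EE sP
  cases a <;> cases b <;> cases c <;> simp <;> first | ring1 | linear_combination -hY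

include hY hmax h01 in
/-- the local statement -/
theorem loc (hY0 : Y ≠ 0) (a b d e : Bool) (n m : 𝓞 K) (hn : ¬ Y ∣ n) (hm : ¬ Y ∣ m)
    (h : Y ^ 7 ∣ EE Y (zP a b d e) * n ^ 2 - m ^ 2) : a = false ∧ b = false ∧ d = false ∧ e = false := by
  have hprime : Prime Y := by
    rw [← Ideal.span_singleton_prime hY0]
    exact hmax.isPrime
  -- inverse of `m`
  obtain ⟨r, q, hrq⟩ : ∃ r q : 𝓞 K, r * m + q * Y ^ 7 = 1 := by
    have h1 : IsCoprime m Y := by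
      rcases h01 m with h | ⟨t, ht⟩
      · exact (hm h).elim
      · exact ⟨1, -t, by linear_combination ht⟩
    exact h1.pow_right
  have hr : ¬ Y ∣ r := by
    intro h1
    apply not_dvd_one Y hmax
    rw [← hrq]
    exact dvd_add (Dvd.dvd.mul_right h1 _) (Dvd.dvd.mul_left (dvd_pow_self Y (by norm_num)) _)
  have hs : ¬ Y ∣ n * r := by
    intro h1
    rcases hprime.dvd_or_dvd h1 with h | h
    · exact hn h
    · exact hr h
  obtain ⟨a', b', c', t, ht⟩ := approx Y h01 (n * r) hs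
  rw [← EE_sP Y hY] at ht
  refine check a b d e a' b' c' (bad_of_dvd Y hY hmax hY0 _ ?_)
  rw [EE_mul Y hY, EE_mul Y hY]
  set Z := EE Y (zP a b d e)
  set s0 := EE Y (sP a' b' c')
  obtain ⟨w, hw⟩ := h
  have h2 := two_eq Y hY
  -- `Z s0^2 - 1 = Z (n r - Y^4 t)^2 - 1`
  have h3 : s0 = n * r - Y ^ 4 * t := by rw [ht]; ring
  have h4 : r * m = 1 - q * Y ^ 7 := by rw [← hrq]; ring
  have h5 : (1 : 𝓞 K) + Y + Y ^ 2 = (1 + Y + Y ^ 2) := rfl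
  have h6 : Y ^ 3 = -2 * (1 + Y + Y ^ 2) := by linear_combination hY
  have h7 : (2 : 𝓞 K) = Y ^ 3 * (1 + Y) := by
    have : (1 + Y) * (1 + Y + Y ^ 2) = -1 := by linear_combination hY
    rw [h6]
    linear_combination 2 * this
  have h8 : Z * (n * r) ^ 2 - 1 = Y ^ 7 * (w * r ^ 2 - 2 * q + q ^ 2 * Y ^ 7) := by
    have : Z * (n * r) ^ 2 = (Y ^ 7 * w + m ^ 2) * r ^ 2 := by rw [← hw]; ring
    rw [this]
    have : (Y ^ 7 * w + m ^ 2) * r ^ 2 = Y ^ 7 * w * r ^ 2 + (r * m) ^ 2 := by ring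
    rw [this, h4]
    ring
  refine ⟨(w * r ^ 2 - 2 * q + q ^ 2 * Y ^ 7) + Z * (-(1 + Y) * (n * r) * t + Y * t ^ 2), ?_⟩
  rw [h3]
  have h9 : Z * ((n * r - Y ^ 4 * t) * (n * r - Y ^ 4 * t)) - 1 =
      (Z * (n * r) ^ 2 - 1) + Z * (-2 * (n * r) * Y ^ 4 * t + Y ^ 8 * t ^ 2) := by ring
  rw [h9, h8]
  have h10 : Z * (-2 * (n * r) * Y ^ 4 * t + Y ^ 8 * t ^ 2) =
      Y ^ 7 * (Z * (-(1 + Y) * (n * r) * t + Y * t ^ 2)) := by
    have : (-2 : 𝓞 K) * (n * r) * Y ^ 4 * t = -(Y ^ 3 * (1 + Y)) * (n * r) * Y ^ 4 * t := by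
      rw [← h7]
    rw [this]
    ring
  rw [h10, ← mul_add]

end

end Pool.RG.Cubic
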