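import Pool.Agent.Helper54.DG.CubicC

/-!
# The cubic field of discriminant `-44` (helper54), part D: the criterion for `S = {11}`
-/

set_option autoImplicit false

open NumberField IsDedekindDomain Polynomial Module

namespace Pool.RG.Cubic

variable {K : Type} [Field K] [NumberField K] (Y : 𝓞 K) (hY : Y ^ 3 + 2 * Y ^ 2 + 2 * Y + 2 = 0)

omit [NumberField K] in
include hY in
theorem hyK : (Y : K) ^ 3 + 2 * (Y : K) ^ 2 + 2 * (Y : K) + 2 = 0 := by
  have := congrArg (algebraMap (𝓞 K) K) hY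
  have h2 : algebraMap (𝓞 K) K 2 = 2 := map_ofNat _ 2
  simpa [h2] using this

include hY in
theorem norm_EE (h3 : finrank ℚ K = 3) (p : ℤ × ℤ × ℤ) :
    (Algebra.norm ℤ (EE Y p) : ℚ) = (Mx p.1 p.2.1 p.2.2).det := by
  rw [Algebra.coe_norm_int, ← norm_eq (Y : K) (hyK Y hY) h3]
  congr 1
  unfold EE
  push_cast
  simp

include hY in
theorem max_of (h3 : finrank ℚ K = 3) (p : ℤ × ℤ × ℤ) (n : ℤ) (hn : n.natAbs.Prime)
    (h : (Mx p.1 p.2.1 p.2.2).det = n) : (Ideal.span {EE Y p}).IsMaximal ∧ EE Y p ≠ 0 := by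
  refine span_max _ n.natAbs hn ?_
  have h1 := norm_EE Y hY h3 p
  rw [h] at h1
  have h2 : Algebra.norm ℤ (EE Y p) = n := by exact_mod_cast h1
  rw [h2]

include hY in
theorem maxY (h3 : finrank ℚ K = 3) : (Ideal.span {Y}).IsMaximal ∧ Y ≠ 0 := by
  have := max_of Y hY h3 (0, 1, 0) (-2) (by decide) (by
    simp [Mx, Matrix.det_fin_three])
  have e : EE Y (0, 1, 0) = Y := by unfold EE; simp
  rwa [e] at this

include hY in
theorem max1 (h3 : finrank ℚ K = 3) : (Ideal.span {1 + 2 * Y}).IsMaximal ∧ 1 + 2 * Y ≠ 0 := by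
  have := max_of Y hY h3 (1, 2, 0) (-11) (by decide) (by
    simp [Mx, Matrix.det_fin_three]; norm_num)
  have e : EE Y (1, 2, 0) = 1 + 2 * Y := by unfold EE; simp
  rwa [e] at this

include hY in
theorem max2 (h3 : finrank ℚ K = 3) : (Ideal.span {3 + 2 * Y + Y ^ 2}).IsMaximal ∧ 3 + 2 * Y + Y ^ 2 ≠ 0 := by
  have := max_of Y hY h3 (3, 2, 1) 11 (by decide) (by
    simp [Mx, Matrix.det_fin_three]; norm_num)
  have e : EE Y (3, 2, 1) = 3 + 2 * Y + Y ^ 2 := by unfold EE; simp
  rwa [e] at this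

omit [NumberField K] in
include hY in
theorem eleven : (1 + 2 * Y) * (3 + 2 * Y + Y ^ 2) ^ 2 = -11 := by
  linear_combination (2 * Y ^ 2 + 5 * Y + 10) * hY

include hY in
theorem h01 (h3 : finrank ℚ K = 3) : ∀ x : 𝓞 K, Y ∣ x ∨ Y ∣ x - 1 := by
  have h1 : Ideal.absNorm (Ideal.span {Y}) = 2 := by
    rw [Ideal.absNorm_span_singleton]
    have h1 := norm_EE Y hY h3 (0, 1, 0)
    have e : EE Y (0, 1, 0) = Y := by unfold EE; simp
    rw [e] at h1
    have h2 : Algebra.norm ℤ Y = -2 := by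
      have : (Mx ((0, 1, 0) : ℤ × ℤ × ℤ).1 ((0, 1, 0) : ℤ × ℤ × ℤ).2.1 ((0, 1, 0) : ℤ × ℤ × ℤ).2.2).det = ((-2 : ℤ) : ℚ) := by
        simp [Mx, Matrix.det_fin_three]
      rw [this] at h1
      exact_mod_cast h1
    rw [h2]; rfl
  classical
  intro x
  have h2 : Nat.card (𝓞 K ⧸ Ideal.span {Y}) = 2 := by
    rw [← h1, Ideal.absNorm_apply]; rfl
  by_contra hcon
  push Not at hcon
  have hfin : Finite (𝓞 K ⧸ Ideal.span {Y}) := Nat.finite_of_card_ne_zero (by rw [h2]; decide)
  have hmax := (maxY Y hY h3).1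
  have := Fintype.ofFinite (𝓞 K ⧸ Ideal.span {Y})
  have h4 : ({0, 1, Ideal.Quotient.mk (Ideal.span {Y}) x} : Finset (𝓞 K ⧸ Ideal.span {Y})).card = 3 := by
    have e1 : (0 : 𝓞 K ⧸ Ideal.span {Y}) ≠ 1 := by
      have : Nontrivial (𝓞 K ⧸ Ideal.span {Y}) := Ideal.Quotient.nontrivial_iff.2 hmax.ne_top
      exact zero_ne_one
    have e2 : (0 : 𝓞 K ⧸ Ideal.span {Y}) ≠ Ideal.Quotient.mk (Ideal.span {Y}) x := by
      intro h
      apply hcon.1
      rw [← Ideal.mem_span_singleton, ← Ideal.Quotient.eq_zero_iff_mem]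
      exact h.symm
    have e3 : (1 : 𝓞 K ⧸ Ideal.span {Y}) ≠ Ideal.Quotient.mk (Ideal.span {Y}) x := by
      intro h
      apply hcon.2
      rw [← Ideal.mem_span_singleton, ← Ideal.Quotient.eq]
      exact h.symm
    exact Finset.card_eq_three.2 ⟨_, _, _, e1, e2, e3, rfl⟩
  have h5 := Finset.card_le_univ ({0, 1, Ideal.Quotient.mk (Ideal.span {Y}) x} : Finset (𝓞 K ⧸ Ideal.span {Y}))
  rw [h4, ← Nat.card_eq_fintype_card, h2] at h5
  omega

omit [NumberField K] in
include hY in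
theorem theta_inv : (1 + Y) * -(1 + Y + Y ^ 2) = 1 := by
  linear_combination -hY

/-- `θ = 1 + Y` -/
noncomputable def th : (𝓞 K)ˣ := ⟨1 + Y, -(1 + Y + Y ^ 2), theta_inv Y hY, by rw [mul_comm]; exact theta_inv Y hY⟩

include hY in
/-- the decomposition modulo squares -/
theorem decomp (h3 : finrank ℚ K = 3) (z : K) (hz : z ≠ 0)
    (hev : ∀ v : HeightOneSpectrum (𝓞 K), (2 : 𝓞 K) ∉ v.asIdeal → (11 : 𝓞 K) ∉ v.asIdeal →
      IsSquare (v.valuation K z)) :
    ∃ (c d e : Bool) (u : (𝓞 K)ˣ) (w : K), w ≠ 0 ∧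
      z * (if c then (Y : K) else 1) * (if d then ((1 + 2 * Y : 𝓞 K) : K) else 1) *
        (if e then ((3 + 2 * Y + Y ^ 2 : 𝓞 K) : K) else 1) * w ^ 2 = ((u : 𝓞 K) : K) := by
  classical
  have := pid (Y : K) (hyK Y hY) h3
  have mY := maxY Y hY h3
  have m1 := max1 Y hY h3
  have m2 := max2 Y hY h3
  -- membership facts
  have f2Y : ∀ v : HeightOneSpectrum (𝓞 K), (2 : 𝓞 K) ∈ v.asIdeal → Y ∈ v.asIdeal := by
    intro v hv
    have : Y ^ 3 ∈ v.asIdeal := by
      have e : Y ^ 3 = 2 * (-(1 + Y + Y ^ 2)) := by linear_combination hY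
      rw [e]; exact Ideal.mul_mem_right _ _ hv
    exact v.isPrime.mem_of_pow_mem 3 this
  have fY2 : ∀ v : HeightOneSpectrum (𝓞 K), Y ∈ v.asIdeal → (2 : 𝓞 K) ∈ v.asIdeal := by
    intro v hv
    rw [two_eq Y hY, neg_mul]
    exact neg_mem (Ideal.mul_mem_right _ _ hv)
  have one_not : ∀ v : HeightOneSpectrum (𝓞 K), (1 : 𝓞 K) ∉ v.asIdeal := fun v h =>
    v.isPrime.ne_top ((Ideal.eq_top_iff_one _).2 h)
  have f11 : ∀ v : HeightOneSpectrum (𝓞 K), (11 : 𝓞 K) ∈ v.asIdeal →
      (1 + 2 * Y) ∈ v.asIdeal ∨ (3 + 2 * Y + Y ^ 2) ∈ v.asIdeal := by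
    intro v hv
    have : (1 + 2 * Y) * (3 + 2 * Y + Y ^ 2) ^ 2 ∈ v.asIdeal := by
      rw [eleven Y hY]; exact neg_mem hv
    rcases v.isPrime.mem_or_mem this with h | h
    · exact Or.inl h
    · exact Or.inr (v.isPrime.mem_of_pow_mem 2 h)
  have nY1 : ∀ v : HeightOneSpectrum (𝓞 K), Y ∈ v.asIdeal → (1 + 2 * Y) ∉ v.asIdeal := by
    intro v h1 h2
    apply one_not v
    have : (1 : 𝓞 K) = (1 + 2 * Y) - 2 * Y := by ring
    rw [this]
    exact sub_mem h2 (Ideal.mul_mem_left _ _ h1)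
  have nY2 : ∀ v : HeightOneSpectrum (𝓞 K), Y ∈ v.asIdeal → (3 + 2 * Y + Y ^ 2) ∉ v.asIdeal := by
    intro v h1 h2
    apply one_not v
    have : (1 : 𝓞 K) = (3 + 2 * Y + Y ^ 2) - (2 + Y) * Y - 2 := by ring
    rw [this]
    exact sub_mem (sub_mem h2 (Ideal.mul_mem_left _ _ h1)) (fY2 v h1)
  have n12 : ∀ v : HeightOneSpectrum (𝓞 K), (1 + 2 * Y) ∈ v.asIdeal → (3 + 2 * Y + Y ^ 2) ∉ v.asIdeal := by
    intro v h1 h2
    apply one_not v
    have h11 : (11 : 𝓞 K) ∈ v.asIdeal := by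
      have : (11 : 𝓞 K) = -((1 + 2 * Y) * (3 + 2 * Y + Y ^ 2) ^ 2) := by rw [eleven Y hY]; ring
      rw [this]
      exact neg_mem (Ideal.mul_mem_right _ _ h1)
    have h9 : (9 : 𝓞 K) ∈ v.asIdeal := by
      have : (9 : 𝓞 K) = 4 * (3 + 2 * Y + Y ^ 2) - (3 + 2 * Y) * (1 + 2 * Y) := by ring
      rw [this]
      exact sub_mem (Ideal.mul_mem_left _ _ h2) (Ideal.mul_mem_left _ _ h1)
    have : (1 : 𝓞 K) = 5 * 9 - 4 * 11 := by norm_num
    rw [this]
    exact sub_mem (Ideal.mul_mem_left _ _ h9) (Ideal.mul_mem_left _ _ h11)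
  have v1 : ∀ (v : HeightOneSpectrum (𝓞 K)) (x : 𝓞 K), x ∉ v.asIdeal → v.valuation K (x : K) = 1 :=
    fun v x hx => (HeightOneSpectrum.valuation_eq_one_iff_notMem _).2 hx
  have sq1 : IsSquare (1 : WithZero (Multiplicative ℤ)) := ⟨1, by simp⟩
  -- the choice
  set c : Bool := decide (¬ IsSquare ((vv Y mY).valuation K z)) with hc
  set d : Bool := decide (¬ IsSquare ((vv (1 + 2 * Y) m1).valuation K z)) with hd
  set e : Bool := decide (¬ IsSquare ((vv (3 + 2 * Y + Y ^ 2) m2).valuation K z)) with he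
  have hY0 : (Y : K) ≠ 0 := fun h => mY.2 (by ext; exact h)
  have h10 : ((1 + 2 * Y : 𝓞 K) : K) ≠ 0 := fun h => m1.2 (by ext; exact h)
  have h20 : ((3 + 2 * Y + Y ^ 2 : 𝓞 K) : K) ≠ 0 := fun h => m2.2 (by ext; exact h)
  have hz' : z * (if c then (Y : K) else 1) * (if d then ((1 + 2 * Y : 𝓞 K) : K) else 1) *
        (if e then ((3 + 2 * Y + Y ^ 2 : 𝓞 K) : K) else 1) ≠ 0 := by
    refine mul_ne_zero (mul_ne_zero (mul_ne_zero hz ?_) ?_) ?_
    · split_ifs; exacts [hY0, one_ne_zero]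
    · split_ifs; exacts [h10, one_ne_zero]
    · split_ifs; exacts [h20, one_ne_zero]
  obtain ⟨u, w, hw, huw⟩ := unit_of_even _ hz' (by
    intro v
    rw [map_mul, map_mul, map_mul]
    by_cases hvY : Y ∈ v.asIdeal
    · have ev : v = vv Y mY := eq_vv Y mY v hvY
      have e1 : v.valuation K (if d then ((1 + 2 * Y : 𝓞 K) : K) else 1) = 1 := by
        split_ifs
        · exact v1 v _ (nY1 v hvY)
        · exact map_one _
      have e2 : v.valuation K (if e then ((3 + 2 * Y + Y ^ 2 : 𝓞 K) : K) else 1) = 1 := by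
        split_ifs
        · exact v1 v _ (nY2 v hvY)
        · exact map_one _
      rw [e1, e2, mul_one, mul_one]
      by_cases hs : IsSquare ((vv Y mY).valuation K z)
      · have : c = false := by rw [hc]; simp [hs]
        rw [this, ev]
        simpa using hs
      · have : c = true := by rw [hc]; simp [hs]
        rw [this, ev]
        simp only [if_true]
        rw [vv_val]
        exact isSquare_mul_of_not _ _ hs not_sq
    · have e0 : v.valuation K (if c then (Y : K) else 1) = 1 := by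
        split_ifs
        · exact v1 v _ hvY
        · exact map_one _
      rw [e0, mul_one]
      by_cases hv1 : (1 + 2 * Y) ∈ v.asIdeal
      · have ev : v = vv (1 + 2 * Y) m1 := eq_vv _ m1 v hv1
        have e2 : v.valuation K (if e then ((3 + 2 * Y + Y ^ 2 : 𝓞 K) : K) else 1) = 1 := by
          split_ifs
          · exact v1 v _ (n12 v hv1)
          · exact map_one _
        rw [e2, mul_one]
        by_cases hs : IsSquare ((vv (1 + 2 * Y) m1).valuation K z)
        · have : d = false := by rw [hd]; simp [hs]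
          rw [this, ev]
          simpa using hs
        · have : d = true := by rw [hd]; simp [hs]
          rw [this, ev]
          simp only [if_true]
          rw [vv_val]
          exact isSquare_mul_of_not _ _ hs not_sq
      · have e1 : v.valuation K (if d then ((1 + 2 * Y : 𝓞 K) : K) else 1) = 1 := by
          split_ifs
          · exact v1 v _ hv1
          · exact map_one _
        rw [e1, mul_one]
        by_cases hv2 : (3 + 2 * Y + Y ^ 2) ∈ v.asIdeal
        · have ev : v = vv (3 + 2 * Y + Y ^ 2) m2 := eq_vv _ m2 v hv2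
          by_cases hs : IsSquare ((vv (3 + 2 * Y + Y ^ 2) m2).valuation K z)
          · have : e = false := by rw [he]; simp [hs]
            rw [this, ev]
            simpa using hs
          · have : e = true := by rw [he]; simp [hs]
            rw [this, ev]
            simp only [if_true]
            rw [vv_val]
            exact isSquare_mul_of_not _ _ hs not_sq
        · have e2 : v.valuation K (if e then ((3 + 2 * Y + Y ^ 2 : 𝓞 K) : K) else 1) = 1 := by
            split_ifs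
            · exact v1 v _ hv2
            · exact map_one _
          rw [e2, mul_one]
          exact hev v (fun h => hvY (f2Y v h)) (fun h => (f11 v h).elim hv1 hv2))
  exact ⟨c, d, e, u, w, hw, huw⟩

end Pool.RG.Cubic
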