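import Pool.Agent.Helper54.DG.CubicD

/-!
# The cubic field of discriminant `-44` (helper54), part E: the criterion for `S = {11}`
-/

set_option autoImplicit false

open NumberField IsDedekindDomain Polynomial Module

namespace Pool.RG.Cubic

variable {K : Type} [Field K] [NumberField K] (Y : 𝓞 K) (hY : Y ^ 3 + 2 * Y ^ 2 + 2 * Y + 2 = 0)

omit [NumberField K] in
include hY in
theorem two_eq' : (2 : 𝓞 K) = Y ^ 3 * (1 + Y) := by
  have h7 : (1 + Y) * (1 + Y + Y ^ 2) = -1 := by linear_combination hY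
  have h6 : Y ^ 3 = -2 * (1 + Y + Y ^ 2) := by linear_combination hY
  rw [h6]
  linear_combination 2 * h7

omit [NumberField K] in
theorem mul_cong (x y : 𝓞 K) (hx : Y ∣ x - 1) (hy : Y ∣ y - 1) : Y ∣ x * y - 1 := by
  have : x * y - 1 = (x - 1) * y + (y - 1) := by ring
  rw [this]
  exact dvd_add (Dvd.dvd.mul_right hx _) hy

omit [NumberField K] in
include hY in
/-- the elements of the list are congruent to one -/
theorem zP_sub (a b d e : Bool) : Y ∣ EE Y (zP a b d e) - 1 := by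
  have h2 : Y ∣ 2 := by rw [two_eq' Y hY]; exact ⟨Y ^ 2 * (1 + Y), by ring⟩
  obtain ⟨t, ht⟩ := h2
  unfold zP
  rw [EE_mul Y hY, EE_mul Y hY, EE_mul Y hY]
  refine mul_cong Y _ _ (mul_cong Y _ _ ?_ ?_) (mul_cong Y _ _ ?_ ?_)
  · cases a
    · simp [EE]
    · simp only [EE, if_true]
      exact ⟨-t, by push_cast; linear_combination -ht⟩
  · cases b
    · simp [EE]
    · simp [EE]
  · cases d
    · simp [EE]
    · simp only [EE, if_true]
      exact ⟨2, by push_cast; ring⟩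
  · cases e
    · simp [EE]
    · simp only [EE, if_true]
      exact ⟨t + 2 + Y, by push_cast; linear_combination ht⟩

theorem lt_exp {x : WithZero (Multiplicative ℤ)} (h : x < WithZero.exp (-6 : ℤ)) : x ≤ WithZero.exp (-7 : ℤ) := by
  by_cases hx : x = 0
  · rw [hx]; exact zero_le
  obtain ⟨n, hn⟩ : ∃ n : ℤ, x = WithZero.exp n := ⟨_, (WithZero.exp_log hx).symm⟩
  rw [hn] at h ⊢
  rw [WithZero.exp_lt_exp] at h
  rw [WithZero.exp_le_exp]
  omega

theorem one_of_sq {x : WithZero (Multiplicative ℤ)} (h : x ^ 2 = 1) : x = 1 := by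
  have hx : x ≠ 0 := by
    rintro rfl
    simp at h
  obtain ⟨n, hn⟩ : ∃ n : ℤ, x = WithZero.exp n := ⟨_, (WithZero.exp_log hx).symm⟩
  rw [hn, sq, ← WithZero.exp_add, ← WithZero.exp_zero] at h
  have := WithZero.exp_injective h
  have h0 : n = 0 := by omega
  rw [hn, h0, WithZero.exp_zero]

include hY in
theorem val_Y (h3 : finrank ℚ K = 3) (v0 : HeightOneSpectrum (𝓞 K)) (hv0 : Y ∈ v0.asIdeal) :
    v0.valuation K (Y : K) = WithZero.exp (-1 : ℤ) := by
  rw [eq_vv Y (maxY Y hY h3) v0 hv0]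
  exact vv_val Y _

include hY in
theorem val_four (h3 : finrank ℚ K = 3) (v0 : HeightOneSpectrum (𝓞 K)) (hv0 : Y ∈ v0.asIdeal) :
    v0.valuation K 4 = WithZero.exp (-6 : ℤ) := by
  have h1 : (4 : K) = ((Y : K) ^ 3 * ((1 + Y : 𝓞 K) : K)) ^ 2 := by
    have h2 := congrArg (algebraMap (𝓞 K) K) (two_eq' Y hY)
    have h3 : algebraMap (𝓞 K) K 2 = 2 := map_ofNat _ 2
    rw [h3] at h2
    rw [map_mul, map_pow] at h2
    rw [← h2]
    norm_num
  have h5 : v0.valuation K ((1 + Y : 𝓞 K) : K) = 1 := by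
    refine (HeightOneSpectrum.valuation_eq_one_iff_notMem _).2 (fun h => ?_)
    apply v0.isPrime.ne_top
    rw [Ideal.eq_top_iff_one]
    have : (1 : 𝓞 K) = (1 + Y) - Y := by ring
    rw [this]
    exact sub_mem h hv0
  rw [h1, map_pow, map_mul, map_pow, val_Y Y hY h3 v0 hv0, h5, mul_one, ← pow_mul]
  rw [← WithZero.exp_nsmul]
  rfl

include hY in
theorem core (h3 : finrank ℚ K = 3) (v0 : HeightOneSpectrum (𝓞 K)) (hv0 : Y ∈ v0.asIdeal) (a b d e : Bool) (s : K)
    (h : v0.valuation K (((EE Y (zP a b d e) : 𝓞 K) : K) * s ^ 2 - 1) < v0.valuation K 4) :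
    a = false ∧ b = false ∧ d = false ∧ e = false := by
  have mY := maxY Y hY h3
  have hv : v0.asIdeal = Ideal.span {Y} := by rw [eq_vv Y mY v0 hv0]; rfl
  have hnd : ¬ Y ∣ EE Y (zP a b d e) := by
    intro h1
    apply not_dvd_one Y mY.1
    have : (1 : 𝓞 K) = EE Y (zP a b d e) - (EE Y (zP a b d e) - 1) := by ring
    rw [this]
    exact dvd_sub h1 (zP_sub Y hY a b d e)
  have hE : v0.valuation K ((EE Y (zP a b d e) : 𝓞 K) : K) = 1 := by
    refine (HeightOneSpectrum.valuation_eq_one_iff_notMem _).2 (fun h => hnd ?_)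
    rw [hv, Ideal.mem_span_singleton] at h
    exact h
  rw [val_four Y hY h3 v0 hv0] at h
  have h1 : v0.valuation K (((EE Y (zP a b d e) : 𝓞 K) : K) * s ^ 2) = 1 := by
    have h2 : v0.valuation K (((EE Y (zP a b d e) : 𝓞 K) : K) * s ^ 2 - 1) < v0.valuation K 1 := by
      rw [map_one]
      refine h.trans ?_
      rw [← WithZero.exp_zero, WithZero.exp_lt_exp]
      norm_num
    have h4 := Valuation.map_add_eq_of_lt_left (v0.valuation K) h2
    rw [add_sub_cancel, map_one] at h4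
    exact h4
  rw [map_mul, hE, one_mul, map_pow] at h1
  have hs := one_of_sq h1
  obtain ⟨n, ⟨m, hm0⟩, hnm⟩ := HeightOneSpectrum.exists_primeCompl_mul_eq_of_integer v0 s hs.le
  have hm0 : m ∉ v0.asIdeal := hm0
  have hm : v0.valuation K (m : K) = 1 :=
    (HeightOneSpectrum.valuation_eq_one_iff_notMem _).2 hm0
  have hnm : s * (m : K) = (n : K) := hnm
  have hn : v0.valuation K (n : K) = 1 := by
    have := congrArg (v0.valuation K) hnm
    rw [map_mul, hs, one_mul] at this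
    exact this.symm.trans hm
  have h5 : v0.valuation K ((EE Y (zP a b d e) * n ^ 2 - m ^ 2 : 𝓞 K) : K) < WithZero.exp (-6 : ℤ) := by
    have e1 : ((EE Y (zP a b d e) * n ^ 2 - m ^ 2 : 𝓞 K) : K) =
        (((EE Y (zP a b d e) : 𝓞 K) : K) * s ^ 2 - 1) * (m : K) ^ 2 := by
      have e2 : ((EE Y (zP a b d e) * n ^ 2 - m ^ 2 : 𝓞 K) : K) =
        ((EE Y (zP a b d e) : 𝓞 K) : K) * (n : K) ^ 2 - (m : K) ^ 2 := by
        simp only [map_sub, map_mul, map_pow]
      rw [e2, ← hnm]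
      ring
    rw [e1, map_mul, map_pow, hm, one_pow, mul_one]
    exact h
  have h6 : Y ^ 7 ∣ EE Y (zP a b d e) * n ^ 2 - m ^ 2 := by
    have h7 := lt_exp h5
    have h8 : v0.valuation K ((EE Y (zP a b d e) * n ^ 2 - m ^ 2 : 𝓞 K) : K) =
        v0.intValuation (EE Y (zP a b d e) * n ^ 2 - m ^ 2) := HeightOneSpectrum.valuation_of_algebraMap _ _
    rw [h8] at h7
    have h9 := (HeightOneSpectrum.intValuation_le_pow_iff_mem v0 _ 7).1 h7
    rw [hv, Ideal.span_singleton_pow, Ideal.mem_span_singleton] at h9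
    exact h9
  refine loc Y hY mY.1 (h01 Y hY h3) mY.2 a b d e n m ?_ ?_ h6
  · intro hd
    have : n ∈ v0.asIdeal := by rw [hv, Ideal.mem_span_singleton]; exact hd
    exact (HeightOneSpectrum.valuation_eq_one_iff_notMem _).1 hn this
  · intro hd
    exact hm0 (by rw [hv, Ideal.mem_span_singleton]; exact hd)

include hY in
theorem th_ne (h3 : finrank ℚ K = 3) (w : (𝓞 K)ˣ) : th Y hY ≠ w ^ 2 ∧ -th Y hY ≠ w ^ 2 := by
  have mY := maxY Y hY h3
  have hY0 : Y ∈ (vv Y mY).asIdeal := Ideal.mem_span_singleton_self Y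
  have hpos : (0 : WithZero (Multiplicative ℤ)) < (vv Y mY).valuation K 4 := by
    rw [val_four Y hY h3 _ hY0]
    exact WithZero.exp_pos
  have hww : ((w : 𝓞 K) : K) * (((w⁻¹ : (𝓞 K)ˣ) : 𝓞 K) : K) = 1 := by
    rw [← map_mul, Units.mul_inv, map_one]
  constructor
  · intro h
    have h1 : ((1 + Y : 𝓞 K) : K) = ((w : 𝓞 K) : K) ^ 2 := by
      have h2 := congrArg (fun u : (𝓞 K)ˣ => ((u : 𝓞 K) : K)) h
      simp only [Units.val_pow_eq_pow_val, map_pow] at h2
      exact h2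
    have := core Y hY h3 (vv Y mY) hY0 false true false false (((w⁻¹ : (𝓞 K)ˣ) : 𝓞 K) : K) (by
      have e1 : EE Y (zP false true false false) = 1 + Y := by
        simp [zP, mulP, EE]
      rw [e1, h1, ← mul_pow, hww, one_pow, sub_self, map_zero]
      exact hpos)
    exact absurd this.2.1 (by decide)
  · intro h
    have h1 : ((-(1 + Y) : 𝓞 K) : K) = ((w : 𝓞 K) : K) ^ 2 := by
      have h2 := congrArg (fun u : (𝓞 K)ˣ => ((u : 𝓞 K) : K)) h
      simp only [Units.val_pow_eq_pow_val, map_pow, Units.val_neg] at h2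
      exact h2
    have := core Y hY h3 (vv Y mY) hY0 true true false false (((w⁻¹ : (𝓞 K)ˣ) : 𝓞 K) : K) (by
      have e1 : EE Y (zP true true false false) = -(1 + Y) := by
        simp [zP, mulP, EE]; ring
      rw [e1, h1, ← mul_pow, hww, one_pow, sub_self, map_zero]
      exact hpos)
    exact absurd this.2.1 (by decide)

omit [NumberField K] in
include hY in
theorem EE_zP (a b d e : Bool) : ((EE Y (zP a b d e) : 𝓞 K) : K) =
    ((if a then -1 else 1) * (if b then ((1 + Y : 𝓞 K) : K) else 1)) *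
      ((if d then ((1 + 2 * Y : 𝓞 K) : K) else 1) * (if e then ((3 + 2 * Y + Y ^ 2 : 𝓞 K) : K) else 1)) := by
  unfold zP
  rw [EE_mul Y hY, EE_mul Y hY, EE_mul Y hY]
  simp only [map_mul]
  congr 1
  · congr 1
    · cases a <;> simp [EE]
    · cases b <;> simp [EE]
  · congr 1
    · cases d <;> simp [EE]
    · cases e <;> simp [EE]

include hY in
/-- the criterion -/
theorem cubic (h3 : finrank ℚ K = 3) (v0 : HeightOneSpectrum (𝓞 K)) (hv0 : Y ∈ v0.asIdeal) (z : K) (hz : z ≠ 0)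
    (hev : ∀ v : HeightOneSpectrum (𝓞 K), (2 : 𝓞 K) ∉ v.asIdeal → (11 : 𝓞 K) ∉ v.asIdeal →
      IsSquare (v.valuation K z))
    (hloc : ∃ y : K, v0.valuation K (z * y ^ 2 - 1) < v0.valuation K 4) : IsSquare z := by
  obtain ⟨y, hy⟩ := hloc
  obtain ⟨c, d, e, u, w, hw, huw⟩ := decomp Y hY h3 z hz hev
  obtain ⟨a, b, w', hu⟩ := unit_class (Y : K) (hyK Y hY) h3 (th Y hY) (fun w => (th_ne Y hY h3 w).1)
    (fun w => (th_ne Y hY h3 w).2) u
  have hu' : ((u : 𝓞 K) : K) = (if a then -1 else 1) * (if b then ((1 + Y : 𝓞 K) : K) else 1) *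
      ((w' : 𝓞 K) : K) ^ 2 := by
    rw [hu]
    cases a <;> cases b <;> simp [th]
    ring
  have hw'0 : ((w' : 𝓞 K) : K) ≠ 0 := by
    intro h
    have h1 : ((w' : 𝓞 K) : K) * (((w'⁻¹ : (𝓞 K)ˣ) : 𝓞 K) : K) = 1 := by
      rw [← map_mul, Units.mul_inv, map_one]
    rw [h, zero_mul] at h1
    exact zero_ne_one h1
  -- parity
  have hzy : v0.valuation K (z * y ^ 2) = 1 := by
    have h2 : v0.valuation K (z * y ^ 2 - 1) < v0.valuation K 1 := by
      rw [map_one]
      refine hy.trans ?_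
      rw [val_four Y hY h3 v0 hv0, ← WithZero.exp_zero, WithZero.exp_lt_exp]
      norm_num
    have h4 := Valuation.map_add_eq_of_lt_left (v0.valuation K) h2
    rw [add_sub_cancel, map_one] at h4
    exact h4
  have hsqz : IsSquare (v0.valuation K z) := by
    have hy0 : v0.valuation K y ≠ 0 := by
      intro h
      rw [map_mul, map_pow, h] at hzy
      simp at hzy
    refine ⟨(v0.valuation K y)⁻¹, ?_⟩
    rw [map_mul, map_pow] at hzy
    rw [← mul_inv, ← sq]
    exact eq_inv_of_mul_eq_one_left hzy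
  have one_not : (1 : 𝓞 K) ∉ v0.asIdeal := fun h => v0.isPrime.ne_top ((Ideal.eq_top_iff_one _).2 h)
  have h2m : (2 : 𝓞 K) ∈ v0.asIdeal := by
    have : (2 : 𝓞 K) = Y * (Y ^ 2 * (1 + Y)) := by rw [two_eq' Y hY]; ring
    rw [this]
    exact Ideal.mul_mem_right _ _ hv0
  have w1 : ∀ t : 𝓞 K, (1 : 𝓞 K) - t ∈ v0.asIdeal → v0.valuation K (t : K) = 1 := by
    intro t ht
    refine (HeightOneSpectrum.valuation_eq_one_iff_notMem _).2 (fun h => one_not ?_)
    have : (1 : 𝓞 K) = (1 - t) + t := by ring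
    rw [this]
    exact add_mem ht h
  have vd : v0.valuation K (if d then ((1 + 2 * Y : 𝓞 K) : K) else 1) = 1 := by
    split_ifs
    · refine w1 _ ?_
      have : (1 : 𝓞 K) - (1 + 2 * Y) = Y * (-2) := by ring
      rw [this]
      exact Ideal.mul_mem_right _ _ hv0
    · exact map_one _
  have ve : v0.valuation K (if e then ((3 + 2 * Y + Y ^ 2 : 𝓞 K) : K) else 1) = 1 := by
    split_ifs
    · refine w1 _ ?_
      have : (1 : 𝓞 K) - (3 + 2 * Y + Y ^ 2) = 2 * (-1) + Y * (-2 - Y) := by ring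
      rw [this]
      exact add_mem (Ideal.mul_mem_right _ _ h2m) (Ideal.mul_mem_right _ _ hv0)
    · exact map_one _
  have vu : ∀ u : (𝓞 K)ˣ, v0.valuation K ((u : 𝓞 K) : K) = 1 := by
    intro u
    refine (HeightOneSpectrum.valuation_eq_one_iff_notMem _).2 (fun h => ?_)
    exact v0.isPrime.ne_top (Ideal.eq_top_of_isUnit_mem _ h u.isUnit)
  have hc : c = false := by
    by_contra hc
    rw [Bool.not_eq_false] at hc
    have h1 := congrArg (v0.valuation K) huw
    rw [map_mul, map_mul, map_mul, map_mul, vd, ve, vu, hc] at h1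
    simp only [if_true, mul_one] at h1
    rw [val_Y Y hY h3 v0 hv0] at h1
    obtain ⟨t, ht⟩ := hsqz
    apply not_sq
    refine ⟨(t * v0.valuation K w)⁻¹, ?_⟩
    rw [ht, map_pow] at h1
    rw [← mul_inv]
    refine eq_inv_of_mul_eq_one_left ?_
    rw [← h1, sq]
    ac_rfl
  set A : K := (if a then -1 else 1) * (if b then ((1 + Y : 𝓞 K) : K) else 1) with hA
  set D : K := (if d then ((1 + 2 * Y : 𝓞 K) : K) else 1) * (if e then ((3 + 2 * Y + Y ^ 2 : 𝓞 K) : K) else 1) with hD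
  have hEE : ((EE Y (zP a b d e) : 𝓞 K) : K) = A * D := EE_zP Y hY a b d e
  have hA0 : A ≠ 0 := by
    intro h
    rw [hu', h, zero_mul] at huw
    have := vu u
    rw [hu', h, zero_mul, map_zero] at this
    exact zero_ne_one this
  have h1 : z * D * w ^ 2 = A * ((w' : 𝓞 K) : K) ^ 2 := by
    rw [← hu', ← huw, hc, hD]
    simp only [Bool.false_eq_true, if_false]
    ring
  have hD0 : D ≠ 0 := by
    intro h
    rw [h, mul_zero, zero_mul] at h1
    exact mul_ne_zero hA0 (pow_ne_zero 2 hw'0) h1.symm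
  clear_value A D
  have h2 : z * (A * D) = (A * ((w' : 𝓞 K) : K) / w) ^ 2 := by
    rw [div_pow, eq_div_iff (pow_ne_zero 2 hw)]
    linear_combination A * h1
  have hall := core Y hY h3 v0 hv0 a b d e (z * y / (A * ((w' : 𝓞 K) : K) / w)) (by
    have e1 : ((EE Y (zP a b d e) : 𝓞 K) : K) * (z * y / (A * ((w' : 𝓞 K) : K) / w)) ^ 2 = z * y ^ 2 := by
      rw [hEE, div_pow, ← h2]
      field_simp
    rw [e1]
    exact hy)
  obtain ⟨ha, hb, hd, he⟩ := hall
  have hA1 : A = 1 := by rw [hA, ha, hb]; simp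
  have hD1 : D = 1 := by rw [hD, hd, he]; simp
  rw [hA1, hD1] at h2
  exact ⟨1 * ((w' : 𝓞 K) : K) / w, by rw [← sq, ← h2]; ring⟩

end Pool.RG.Cubic
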