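import Pool.Agent.Helper54.DG.CubicE
import Pool.Agent.Helper2.RG.Defs2
import Pool.Agent.Helper2.RG.Base

/-!
# The cubic field of discriminant `-44` (helper54), part F: `CaseC` and `OnePrime`, and `DecSurj` without normality
-/

set_option autoImplicit false

open NumberField IsDedekindDomain Polynomial Module
open scoped Pointwise

namespace Pool.RG.Cubic

section

variable {K : Type} [Field K] [NumberField K] (θ : K) (hθ : θ ^ 3 - θ ^ 2 + θ + 1 = 0)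

omit [NumberField K] in
include hθ in
theorem exists_Y : ∃ Y : 𝓞 K, (Y : K) = θ - 1 ∧ Y ^ 3 + 2 * Y ^ 2 + 2 * Y + 2 = 0 := by
  have h1 : (θ - 1) ^ 3 + 2 * (θ - 1) ^ 2 + 2 * (θ - 1) + 2 = 0 := by linear_combination hθ
  refine ⟨⟨θ - 1, isInt (θ - 1) h1⟩, rfl, ?_⟩
  apply RingOfIntegers.ext
  have h2 : algebraMap (𝓞 K) K 2 = 2 := map_ofNat _ 2
  simp only [map_add, map_mul, map_pow, map_zero, h2]
  exact h1

omit [NumberField K] in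
theorem Y_mem (Y : 𝓞 K) (hY : Y ^ 3 + 2 * Y ^ 2 + 2 * Y + 2 = 0) (p : Ideal (𝓞 K)) (hp : p.IsPrime)
    (h : (2 : 𝓞 K) ∈ p) : Y ∈ p := by
  have : Y ^ 3 ∈ p := by
    have e : Y ^ 3 = 2 * (-(1 + Y + Y ^ 2)) := by linear_combination hY
    rw [e]; exact Ideal.mul_mem_right _ _ h
  exact hp.mem_of_pow_mem 3 this

omit [NumberField K] in
theorem two_mem (Y : 𝓞 K) (hY : Y ^ 3 + 2 * Y ^ 2 + 2 * Y + 2 = 0) (p : Ideal (𝓞 K))
    (h : Y ∈ p) : (2 : 𝓞 K) ∈ p := by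
  have : (2 : 𝓞 K) = Y * (Y ^ 2 * (1 + Y)) := by rw [two_eq' Y hY]; ring
  rw [this]
  exact Ideal.mul_mem_right _ _ h

include hθ in
theorem onePrime_cubic (h3 : finrank ℚ K = 3) : ∃! p : Ideal (𝓞 K), p.IsMaximal ∧ ((2 : ℕ) : 𝓞 K) ∈ p := by
  obtain ⟨Y, -, hY⟩ := exists_Y θ hθ
  have mY := maxY Y hY h3
  refine ⟨Ideal.span {Y}, ⟨mY.1, ?_⟩, ?_⟩
  · exact two_mem Y hY _ (Ideal.mem_span_singleton_self Y)
  · rintro p ⟨hp, h2⟩
    have h2 : (2 : 𝓞 K) ∈ p := by exact_mod_cast h2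
    have := Y_mem Y hY p hp.isPrime h2
    exact (mY.1.eq_of_le hp.ne_top ((Ideal.span_singleton_le_iff_mem _).2 this)).symm

include hθ in
theorem sqCond_cubic (h3 : finrank ℚ K = 3) (v0 : HeightOneSpectrum (𝓞 K)) (hv0 : (2 : 𝓞 K) ∈ v0.asIdeal) :
    Pool.RG2.SqCond K {11} v0 := by
  obtain ⟨Y, -, hY⟩ := exists_Y θ hθ
  intro z hz hev hloc
  refine cubic Y hY h3 v0 (Y_mem Y hY _ v0.isPrime hv0) z hz (fun v h2 h11 => hev v h2 ?_) hloc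
  intro p hp
  rw [Finset.mem_singleton] at hp
  subst hp
  exact_mod_cast h11

end

theorem caseC_cubic (F : Pool.RG2.Sub) [NumberField F] (θ : F) (hθ : θ ^ 3 - θ ^ 2 + θ + 1 = 0)
    (h3 : finrank ℚ F = 3) (P0 : Ideal Pool.RG2.Zb) (h2 : ((2 : ℕ) : Pool.RG2.Zb) ∈ P0) :
    Pool.RG2.CaseC 2 {11} F P0 := by
  refine ⟨rfl, fun v0 hv0 => ?_⟩
  refine sqCond_cubic θ hθ h3 v0 ?_
  rw [hv0 2]
  have : algebraMap (𝓞 F) Pool.RG2.Zb 2 = ((2 : ℕ) : Pool.RG2.Zb) := by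
    rw [map_ofNat]; rfl
  rw [this]
  exact h2

/-- If `F` has exactly one prime above `l`, the decomposition group of `P0` surjects onto `Gal(Qb/F0)` modulo
`Gal(Qb/F)` (no normality). -/
theorem decSurj_of_one (hO : StOne) (l : ℕ) (hl : l.Prime) (F0 F : IntermediateField ℚ Qb) [NumberField F]
    (hF : F0 ≤ F) (h1 : ∃! p : Ideal (𝓞 F), p.IsMaximal ∧ (l : 𝓞 F) ∈ p)
    (P0 : Ideal (𝓞 Qb)) (hP0 : P0.IsMaximal) (hlP0 : (l : 𝓞 Qb) ∈ P0) : DecSurj F0 F P0 := by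
  intro g hg
  have hgl : (l : 𝓞 Qb) ∈ g⁻¹ • P0 := by
    rw [mem_smul]
    have : g⁻¹⁻¹ • (l : 𝓞 Qb) = (l : 𝓞 Qb) := by
      apply NumberField.RingOfIntegers.ext
      rw [coe_smul']
      simp
    rw [this]
    exact hlP0
  obtain ⟨h, hh, hhP⟩ := hO l F hl h1 P0 (g⁻¹ • P0) hP0 (isMaximal_smul g⁻¹ P0 hP0) hlP0 hgl
  have hF' : GF F ≤ GF F0 := IntermediateField.fixingSubgroup_le hF
  refine ⟨g * h, ⟨(GF F0).mul_mem hg (hF' hh), ?_⟩, ?_⟩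
  · change g * h ∈ Dec P0
    rw [mem_Dec, mul_smul, hhP, smul_inv_smul]
  · have e : (g * h)⁻¹ * g = h⁻¹ := by group
    rw [e]
    exact (GF F).inv_mem hh

end Pool.RG.Cubic
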