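import Mathlib

/-!
# DG: continuous cocycles and decomposition groups, the group theoretic part

A continuous `ℓ`-adic representation with pro-`ℓ` image and a continuous cocycle `c` of a profinite group `G`:
if every normal subgroup of index `ℓ` that contains the set `I` (on which both are trivial) fails to contain
`D`, and `c` is a coboundary on `D`, then `c` is a coboundary.
-/

set_option autoImplicit false
set_option linter.unusedSectionVars false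

namespace Pool.Agent.Helper54.DG

open Topology Filter

section

variable {G : Type*} [Group G] [TopologicalSpace G] [IsTopologicalGroup G]
  [CompactSpace G] [TotallyDisconnectedSpace G] {ℓ : ℕ} [hℓ : Fact ℓ.Prime] {n : ℕ}
  (ρ : G →* GL (Fin n) ℚ_[ℓ]) (c : G → Fin n → ℚ_[ℓ])

theorem c_one (hcoc : ∀ σ τ, c (σ * τ) = c σ + (ρ σ).1.mulVec (c τ)) : c 1 = 0 := by
  have h := hcoc 1 1
  rw [map_one, mul_one] at h
  simpa using h

/-- The subgroup on which `ρ` and `c` are trivial. -/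
def N0 (hcoc : ∀ σ τ, c (σ * τ) = c σ + (ρ σ).1.mulVec (c τ)) : Subgroup G where
  carrier := {σ | ρ σ = 1 ∧ c σ = 0}
  mul_mem' := by
    rintro a b ⟨ha, ha'⟩ ⟨hb, hb'⟩
    refine ⟨by rw [map_mul, ha, hb, one_mul], ?_⟩
    rw [hcoc, ha', hb', ha]; simp
  one_mem' := ⟨map_one ρ, c_one ρ c hcoc⟩
  inv_mem' := by
    rintro a ⟨ha, ha'⟩
    refine ⟨by rw [map_inv, ha, inv_one], ?_⟩
    have h0 : c 1 = 0 := c_one ρ c hcoc
    have h := hcoc a a⁻¹
    rw [mul_inv_cancel, ha', ha, h0] at h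
    simpa using h.symm

theorem mem_N0 (hcoc : ∀ σ τ, c (σ * τ) = c σ + (ρ σ).1.mulVec (c τ)) (σ : G) :
    σ ∈ N0 ρ c hcoc ↔ ρ σ = 1 ∧ c σ = 0 := Iff.rfl

theorem N0_normal (hcoc : ∀ σ τ, c (σ * τ) = c σ + (ρ σ).1.mulVec (c τ)) :
    (N0 ρ c hcoc).Normal := by
  refine ⟨fun a ha g => ?_⟩
  obtain ⟨ha, ha'⟩ := ha
  refine ⟨by rw [map_mul, map_mul, ha, mul_one, ← map_mul, mul_inv_cancel, map_one], ?_⟩
  have h0 := c_one ρ c hcoc
  have h := hcoc g g⁻¹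
  rw [mul_inv_cancel, h0] at h
  rw [hcoc, hcoc, ha', map_mul, ha, mul_one]
  rw [Matrix.mulVec_zero, add_zero]
  exact h.symm

variable {ρ c}

/-- the sequence of exponents -/
theorem exists_exp (m : ℕ) (hm : m.Coprime ℓ) (i : ℕ) :
    ∃ j : ℕ, m ∣ j ∧ ‖((j : ℚ_[ℓ]) - 1)‖ ≤ (ℓ : ℝ) ^ (-i : ℤ) := by
  have hc : m.Coprime (ℓ ^ i) := hm.pow_right i
  obtain ⟨j, hj1, hj2⟩ := Nat.chineseRemainder hc 0 1
  refine ⟨j, (Nat.modEq_zero_iff_dvd).1 hj1, ?_⟩
  have h : ((ℓ ^ i : ℕ) : ℤ) ∣ ((j : ℤ) - 1) := by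
    have := (Nat.modEq_iff_dvd.1 hj2.symm)
    simpa using this
  have h3 : ‖(((j : ℤ) - 1 : ℤ) : ℚ_[ℓ])‖ ≤ (ℓ : ℝ) ^ (-i : ℤ) :=
    (Padic.norm_int_le_pow_iff_dvd (p := ℓ) ((j : ℤ) - 1) i).2 (by exact_mod_cast h)
  simpa using h3

theorem exists_seq (m : ℕ) (hm : m.Coprime ℓ) :
    ∃ j : ℕ → ℕ, (∀ i, m ∣ j i) ∧ Tendsto (fun i => ((j i : ℕ) : ℚ_[ℓ])) atTop (𝓝 1) := by
  choose j hj1 hj2 using exists_exp (ℓ := ℓ) m hm
  refine ⟨j, hj1, ?_⟩
  rw [tendsto_iff_norm_sub_tendsto_zero]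
  have hℓ1 : (1 : ℝ) < ℓ := by exact_mod_cast hℓ.out.one_lt
  refine squeeze_zero (fun _ => norm_nonneg _) hj2 ?_
  have : Tendsto (fun i : ℕ => ((ℓ : ℝ)⁻¹) ^ i) atTop (𝓝 0) :=
    tendsto_pow_atTop_nhds_zero_of_lt_one (by positivity) (inv_lt_one_of_one_lt₀ hℓ1)
  refine this.congr fun i => ?_
  rw [zpow_neg, zpow_natCast, inv_pow]

theorem c_pow (hcoc : ∀ σ τ, c (σ * τ) = c σ + (ρ σ).1.mulVec (c τ)) (x : G) (hx : ρ x = 1)
    (j : ℕ) : c (x ^ j) = (j : ℚ_[ℓ]) • c x := by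
  induction j with
  | zero => simp [c_one ρ c hcoc]
  | succ k ih =>
    rw [pow_succ', hcoc, hx, ih]
    simp only [Units.val_one, Matrix.one_mulVec]
    push_cast
    rw [add_smul, one_smul, add_comm]

/-- an element of the kernel of `ρ` whose `m`-th power lies in `H`, `m` prime to `ℓ`, lies in `H` -/
theorem mem_of_pow (hρ : Continuous ρ) (hc : Continuous c)
    (hcoc : ∀ σ τ, c (σ * τ) = c σ + (ρ σ).1.mulVec (c τ)) (H : Subgroup G)
    (hH : IsOpen (H : Set G)) (hN : N0 ρ c hcoc ≤ H) (x : G) (hx : ρ x = 1) (m : ℕ)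
    (hm : m.Coprime ℓ) (hxm : x ^ m ∈ H) : x ∈ H := by
  obtain ⟨j, hj1, hj2⟩ := exists_seq (ℓ := ℓ) m hm
  have hHc : IsClosed (H : Set G) := H.isClosed_of_isOpen hH
  have hkc : IsClosed {σ : G | ρ σ = 1} := isClosed_singleton.preimage hρ
  have hK : IsCompact ((H : Set G) ∩ {σ : G | ρ σ = 1}) := (hHc.inter hkc).isCompact
  have hC : IsClosed (c '' ((H : Set G) ∩ {σ : G | ρ σ = 1})) := (hK.image hc).isClosed
  have hlim : Tendsto (fun i => ((j i : ℕ) : ℚ_[ℓ]) • c x) atTop (𝓝 ((1 : ℚ_[ℓ]) • c x)) :=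
    hj2.smul_const (c x)
  rw [one_smul] at hlim
  have hmem : c x ∈ c '' ((H : Set G) ∩ {σ : G | ρ σ = 1}) := by
    refine hC.mem_of_tendsto hlim (Eventually.of_forall fun i => ?_)
    refine ⟨x ^ (j i), ⟨?_, ?_⟩, c_pow hcoc x hx (j i)⟩
    · obtain ⟨t, ht⟩ := hj1 i
      rw [ht, pow_mul]
      exact H.pow_mem hxm t
    · change ρ (x ^ (j i)) = 1
      rw [map_pow, hx, one_pow]
  obtain ⟨h, ⟨hh1, hh2⟩, hh3⟩ := hmem
  change ρ h = 1 at hh2
  have h0 : h⁻¹ * x ∈ N0 ρ c hcoc := by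
    refine ⟨by rw [map_mul, map_inv, hh2, hx]; simp, ?_⟩
    have e1 := hcoc h h⁻¹
    rw [mul_inv_cancel, c_one ρ c hcoc, hh2] at e1
    simp only [Units.val_one, Matrix.one_mulVec] at e1
    rw [hcoc, map_inv, hh2, inv_one]
    simp only [Units.val_one, Matrix.one_mulVec]
    rw [← hh3, add_comm, ← e1]
  have := H.mul_mem hh1 (hN h0)
  rwa [mul_inv_cancel_left] at this

/-- open normal subgroups that contain `N0` have `ℓ`-power index -/
theorem index_pow (hρ : Continuous ρ) (hc : Continuous c)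
    (hcoc : ∀ σ τ, c (σ * τ) = c σ + (ρ σ).1.mulVec (c τ))
    (hpro : ∀ N : Subgroup G, N.Normal → IsOpen (N : Set G) → ρ.ker ≤ N → ∃ k, N.index = ℓ ^ k)
    (H : Subgroup G) (hHn : H.Normal) (hH : IsOpen (H : Set G)) (hN : N0 ρ c hcoc ≤ H) :
    ∃ k, H.index = ℓ ^ k := by
  have hfin : H.FiniteIndex := by
    have : Finite (G ⧸ H) := H.quotient_finite_of_isOpen hH
    exact Subgroup.finiteIndex_of_finite_quotient
  have hfq : Finite (G ⧸ H) := H.quotient_finite_of_isOpen hH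
  have hp : IsPGroup ℓ (G ⧸ H) := by
    intro g
    obtain ⟨g, rfl⟩ := QuotientGroup.mk_surjective g
    have hn1 : (H ⊔ ρ.ker).Normal := Subgroup.sup_normal _ _
    have ho1 : IsOpen ((H ⊔ ρ.ker : Subgroup G) : Set G) := Subgroup.isOpen_mono le_sup_left hH
    obtain ⟨k, hk⟩ := hpro _ hn1 ho1 le_sup_right
    have hg : g ^ (ℓ ^ k) ∈ H ⊔ ρ.ker := by
      have hfi : (H ⊔ ρ.ker).FiniteIndex := Subgroup.finiteIndex_of_le le_sup_left
      rw [← hk]
      exact Subgroup.pow_index_mem _ g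
    obtain ⟨h, hh, x, hx, hhx⟩ := Subgroup.mem_sup_of_normal_left.1 hg
    -- the order of `x` modulo `H`
    have hmpos : 0 < orderOf (x : G ⧸ H) := orderOf_pos _
    obtain ⟨a, m, hm, ham⟩ := Nat.exists_eq_pow_mul_and_not_dvd hmpos.ne' ℓ hℓ.out.one_lt.ne'
    have hx1 : (x ^ (ℓ ^ a)) ^ m ∈ H := by
      rw [← QuotientGroup.eq_one_iff, ← pow_mul]
      rw [QuotientGroup.mk_pow, ← ham, pow_orderOf_eq_one]
    have hxk : ρ (x ^ (ℓ ^ a)) = 1 := by
      rw [map_pow, show ρ x = 1 from hx, one_pow]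
    have hmc : m.Coprime ℓ := (Nat.Prime.coprime_iff_not_dvd hℓ.out).2 hm |>.symm
    have hx2 := mem_of_pow hρ hc hcoc H hH hN _ hxk m hmc hx1
    refine ⟨k + a, ?_⟩
    have e : ((g : G ⧸ H)) ^ (ℓ ^ k) = (x : G ⧸ H) := by
      rw [← QuotientGroup.mk_pow, ← hhx, QuotientGroup.mk_mul,
        (QuotientGroup.eq_one_iff h).2 hh, one_mul]
    rw [pow_add, pow_mul, e, ← QuotientGroup.mk_pow, QuotientGroup.eq_one_iff]
    exact hx2
  obtain ⟨k, hk⟩ := IsPGroup.iff_card.1 hp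
  exact ⟨k, hk⟩

/-- a proper subgroup of `ℓ`-power index containing a normal subgroup of `ℓ`-power index lies in a
normal subgroup of index `ℓ` -/
theorem exists_max (H D : Subgroup G) (hHn : H.Normal) (hH : ∃ k, H.index = ℓ ^ k)
    (hD : D ⊔ H ≠ ⊤) : ∃ M : Subgroup G, M.Normal ∧ M.index = ℓ ∧ D ≤ M ∧ H ≤ M := by
  obtain ⟨k, hk⟩ := hH
  have hcard : Nat.card (G ⧸ H) = ℓ ^ k := hk
  have hfq : Finite (G ⧸ H) := Nat.finite_of_card_ne_zero (by rw [hcard]; exact pow_ne_zero _ hℓ.out.ne_zero)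
  have hp : IsPGroup ℓ (G ⧸ H) := IsPGroup.of_card hcard
  set Q : Subgroup (G ⧸ H) := (D ⊔ H).map (QuotientGroup.mk' H) with hQ
  have hQtop : Q ≠ ⊤ := by
    intro h
    apply hD
    have : (Q.comap (QuotientGroup.mk' H)) = ⊤ := by rw [h, Subgroup.comap_top]
    rw [hQ, Subgroup.comap_map_eq, QuotientGroup.ker_mk', sup_assoc, sup_idem] at this
    exact this
  obtain ⟨j, hj⟩ := IsPGroup.iff_card.1 (hp.to_subgroup Q)
  have hjk : j < k := by
    by_contra hcon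
    push Not at hcon
    apply hQtop
    apply Subgroup.eq_top_of_card_eq
    apply le_antisymm
    · exact Subgroup.card_le_card_group Q
    · rw [hcard, hj]
      exact Nat.pow_le_pow_right hℓ.out.pos hcon
  obtain ⟨M', hM1, hM2⟩ := Sylow.exists_subgroup_card_pow_prime_le (n := j) (m := k - 1) ℓ
    (by rw [hcard]; exact pow_dvd_pow _ (by omega)) Q hj (by omega)
  have hidx : M'.index = ℓ := by
    have h1 := M'.card_mul_index
    rw [hM1, hcard] at h1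
    have h2 : ℓ ^ k = ℓ ^ (k - 1) * ℓ := by
      rw [← pow_succ]; congr 1; omega
    rw [h2] at h1
    exact Nat.eq_of_mul_eq_mul_left (pow_pos hℓ.out.pos _) h1
  have hM'n : M'.Normal := by
    apply Subgroup.normal_of_index_eq_minFac_card
    rw [hidx, hcard, hℓ.out.pow_minFac (by omega)]
  refine ⟨M'.comap (QuotientGroup.mk' H), inferInstance, ?_, ?_, ?_⟩
  · rw [Subgroup.index_comap_of_surjective _ (QuotientGroup.mk'_surjective H), hidx]
  · intro x hx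
    rw [Subgroup.mem_comap]
    exact hM2 (Subgroup.mem_map_of_mem _ (Subgroup.mem_sup_left hx))
  · intro x hx
    rw [Subgroup.mem_comap]
    exact hM2 (Subgroup.mem_map_of_mem _ (Subgroup.mem_sup_right hx))

theorem bound_rho (hρ : Continuous ρ) : ∃ C : ℝ, 0 ≤ C ∧ ∀ (σ : G) (v : Fin n → ℚ_[ℓ]),
    ‖(ρ σ).1.mulVec v‖ ≤ C * ‖v‖ := by
  have hval : Continuous fun σ : G => ((ρ σ : GL (Fin n) ℚ_[ℓ]) : Matrix (Fin n) (Fin n) ℚ_[ℓ]) :=
    Units.continuous_val.comp hρ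
  have h1 : ∀ i j : Fin n, Continuous fun σ : G => (ρ σ).1 i j := fun i j =>
    hval.matrix_elem i j
  have h2 : ∀ i j : Fin n, ∃ C : ℝ, ∀ σ : G, ‖(ρ σ).1 i j‖ ≤ C := by
    intro i j
    obtain ⟨C, hC⟩ := (isCompact_range (h1 i j).norm).bddAbove
    exact ⟨C, fun σ => hC ⟨σ, rfl⟩⟩
  choose B hB using h2
  refine ⟨∑ i, ∑ j, |B i j|, Finset.sum_nonneg fun i _ => Finset.sum_nonneg fun j _ => abs_nonneg _,
    fun σ v => ?_⟩
  rw [pi_norm_le_iff_of_nonneg (mul_nonneg (Finset.sum_nonneg fun i _ =>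
    Finset.sum_nonneg fun j _ => abs_nonneg _) (norm_nonneg v))]
  intro i
  calc ‖(ρ σ).1.mulVec v i‖ = ‖∑ j, (ρ σ).1 i j * v j‖ := rfl
    _ ≤ ∑ j, ‖(ρ σ).1 i j * v j‖ := norm_sum_le _ _
    _ ≤ ∑ j, |B i j| * ‖v‖ := by
        refine Finset.sum_le_sum fun j _ => ?_
        rw [norm_mul]
        exact mul_le_mul ((hB i j σ).trans (le_abs_self _)) (norm_le_pi_norm v j) (norm_nonneg _)
          (abs_nonneg _)
    _ = (∑ j, |B i j|) * ‖v‖ := by rw [Finset.sum_mul]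
    _ ≤ (∑ i, ∑ j, |B i j|) * ‖v‖ := by
        refine mul_le_mul_of_nonneg_right ?_ (norm_nonneg v)
        exact Finset.single_le_sum (f := fun i => ∑ j, |B i j|)
          (fun i _ => Finset.sum_nonneg fun j _ => abs_nonneg _) (Finset.mem_univ i)

/-- the case of a cocycle that vanishes on `D` -/
theorem grp_zero (hρ : Continuous ρ) (hc : Continuous c)
    (hcoc : ∀ σ τ, c (σ * τ) = c σ + (ρ σ).1.mulVec (c τ))
    (hpro : ∀ N : Subgroup G, N.Normal → IsOpen (N : Set G) → ρ.ker ≤ N → ∃ k, N.index = ℓ ^ k)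
    (D : Subgroup G) (I : Set G) (hI : ∀ σ ∈ I, ρ σ = 1 ∧ c σ = 0)
    (hM : ∀ M : Subgroup G, M.Normal → IsOpen (M : Set G) → M.index = ℓ → I ⊆ M → ¬ D ≤ M)
    (hD : ∀ σ ∈ D, c σ = 0) (σ : G) : c σ = 0 := by
  obtain ⟨C, hC0, hC⟩ := bound_rho (G := G) hρ
  rw [← norm_le_zero_iff]
  refine le_of_forall_pos_le_add fun ε hε => ?_
  rw [zero_add]
  have hW : IsOpen {x : G | ‖c x‖ < ε / (C + 1)} := isOpen_lt hc.norm continuous_const
  have h1W : (1 : G) ∈ {x : G | ‖c x‖ < ε / (C + 1)} := by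
    change ‖c 1‖ < _
    rw [c_one ρ c hcoc, norm_zero]
    positivity
  obtain ⟨H', hH'⟩ := ProfiniteGrp.exist_openNormalSubgroup_sub_open_nhds_of_one hW h1W
  set H : Subgroup G := H'.toSubgroup ⊔ N0 ρ c hcoc with hHdef
  have hN0n := N0_normal ρ c hcoc
  have hHn : H.Normal := Subgroup.sup_normal _ _
  have hHo : IsOpen (H : Set G) := Subgroup.isOpen_mono le_sup_left H'.isOpen'
  have hHc : ∀ h ∈ H, ‖c h‖ < ε / (C + 1) := by
    intro h hh
    obtain ⟨a, ha, x, hx, rfl⟩ := Subgroup.mem_sup_of_normal_left.1 hh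
    obtain ⟨hx1, hx2⟩ := hx
    rw [hcoc, hx2, Matrix.mulVec_zero, add_zero]
    exact hH' ha
  have hidx := index_pow hρ hc hcoc hpro H hHn hHo le_sup_right
  have hDH : D ⊔ H = ⊤ := by
    by_contra hcon
    obtain ⟨M, hM1, hM2, hM3, hM4⟩ := exists_max (ℓ := ℓ) H D hHn hidx hcon
    refine hM M hM1 (Subgroup.isOpen_mono hM4 hHo) hM2 (fun x hx => hM4 ?_) hM3
    exact Subgroup.mem_sup_right (hI x hx)
  have hσ : σ ∈ D ⊔ H := by rw [hDH]; trivial
  obtain ⟨d, hd, h, hh, rfl⟩ := Subgroup.mem_sup_of_normal_right.1 hσ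
  rw [hcoc, hD d hd, zero_add]
  calc ‖(ρ d).1.mulVec (c h)‖ ≤ C * ‖c h‖ := hC _ _
    _ ≤ (C + 1) * (ε / (C + 1)) := by
        refine mul_le_mul (by linarith) (hHc h hh).le (norm_nonneg _) (by linarith)
    _ = ε := by field_simp

/-- **Group theoretic main theorem.** -/
theorem grp_main (hρ : Continuous ρ) (hc : Continuous c)
    (hcoc : ∀ σ τ, c (σ * τ) = c σ + (ρ σ).1.mulVec (c τ))
    (hpro : ∀ N : Subgroup G, N.Normal → IsOpen (N : Set G) → ρ.ker ≤ N → ∃ k, N.index = ℓ ^ k)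
    (D : Subgroup G) (I : Set G) (hI : ∀ σ ∈ I, ρ σ = 1 ∧ c σ = 0)
    (hM : ∀ M : Subgroup G, M.Normal → IsOpen (M : Set G) → M.index = ℓ → I ⊆ M → ¬ D ≤ M)
    (hD : ∃ b, ∀ σ ∈ D, c σ = (ρ σ).1.mulVec b - b) :
    ∃ b, ∀ σ, c σ = (ρ σ).1.mulVec b - b := by
  obtain ⟨b, hb⟩ := hD
  refine ⟨b, fun σ => ?_⟩
  have hval : Continuous fun σ : G => ((ρ σ : GL (Fin n) ℚ_[ℓ]) : Matrix (Fin n) (Fin n) ℚ_[ℓ]) :=
    Units.continuous_val.comp hρ
  have hmv : Continuous fun σ : G => (ρ σ).1.mulVec b := hval.matrix_mulVec continuous_const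
  have hcont : Continuous fun σ : G => c σ - ((ρ σ).1.mulVec b - b) :=
    hc.sub (hmv.sub continuous_const)
  have h := grp_zero (c := fun σ => c σ - ((ρ σ).1.mulVec b - b)) hρ hcont (by
    intro σ τ
    simp only [hcoc, map_mul, Units.val_mul, Matrix.mulVec_sub, ← Matrix.mulVec_mulVec]
    abel) hpro D I (by
    intro σ hσ
    obtain ⟨h1, h2⟩ := hI σ hσ
    refine ⟨h1, ?_⟩
    rw [h1, h2]; simp) hM (by
    intro σ hσ
    rw [hb σ hσ, sub_self]) σ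
  exact sub_eq_zero.1 h

end

end Pool.Agent.Helper54.DG
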